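import Pool.Agent.Lib.MP_413903_an.T.Hole

/-!
# MP_413903_an, tame isomorphisms: approximation with exponential rate
-/

set_option autoImplicit false

namespace Pool.Agent.Lib.MP_413903_an

open Complex Set Filter Topology OnePoint NNReal TopologicalSpace

/-- Approximation on `N` with error `e^{-R}` and growth `e^{ν R}` on every compact set. -/
def AppProp (D : Set (OnePoint ℂ)) (N : Compacts D) (ν : ℝ) : Prop :=
  ∃ K' : Compacts D, ∀ K : Compacts D, ∃ C : ℝ, 0 ≤ C ∧ ∀ (f : OO D) (a R : ℝ), 0 < a →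
    nrm K' (f : C(D, ℂ)) ≤ a → 0 ≤ R →
    ∃ h : OO D, nrm N (f - h : C(D, ℂ)) ≤ C * Real.exp (-R) * a ∧
      nrm K (h : C(D, ℂ)) ≤ C * Real.exp (ν * R) * a

/-- the constants -/
noncomputable def constO (D : Set (OnePoint ℂ)) (hD : IsOpen D) (a : ℂ) : OO D :=
  ⟨ContinuousMap.const D a, by
    refine ⟨fun z hz => ?_, fun h => ?_⟩
    · refine analyticAt_const.congr (f := fun _ => a) ?_
      filter_upwards [openD_nhds hD hz] with w hw
      rw [ext_of_mem _ hw]
      rfl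
    · refine analyticAt_const.congr (f := fun _ => a) ?_
      filter_upwards [chartInf_nhds hD h] with w hw
      rw [ext_of_mem _ hw]
      rfl⟩

theorem constO_apply {D : Set (OnePoint ℂ)} (hD : IsOpen D) (a : ℂ) (p : D) :
    (constO D hD a : C(D, ℂ)) p = a := rfl

/-- the distance of a compact set to a removed disc -/
theorem farDisc (P : Par) (N : Compacts P.D) {i : ℕ} (hi : 1 ≤ i) : ∃ d : ℝ, P.r i < d ∧
    ∀ p ∈ N, ∀ z : ℂ, (p : OnePoint ℂ) = z → d ≤ ‖z - P.c i‖ := by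
  have h1 : IsCompact ((fun p : P.D => (p : OnePoint ℂ)) '' (N : Set P.D)) :=
    N.isCompact.image continuous_subtype_val
  have h2 : IsClosed ((fun z : ℂ => (z : OnePoint ℂ)) ⁻¹'
      ((fun p : P.D => (p : OnePoint ℂ)) '' (N : Set P.D))) :=
    h1.isClosed.preimage OnePoint.continuous_coe
  set A : Set ℂ := ((fun z : ℂ => (z : OnePoint ℂ)) ⁻¹'
      ((fun p : P.D => (p : OnePoint ℂ)) '' (N : Set P.D))) with hA
  have hAD : ∀ z ∈ A, P.r i < ‖z - P.c i‖ := by
    rintro z ⟨p, -, hp⟩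
    have hp' : (p : OnePoint ℂ) = (z : OnePoint ℂ) := hp
    have hz : (z : OnePoint ℂ) ∈ P.D := hp' ▸ p.2
    by_contra h
    exact (coe_mem_dom.1 hz) (Or.inr ⟨i, hi, not_lt.1 h⟩)
  have hc : IsCompact (A ∩ Metric.closedBall (P.c i) (P.r i + 1)) :=
    (isCompact_closedBall _ _).inter_left h2
  rcases (A ∩ Metric.closedBall (P.c i) (P.r i + 1)).eq_empty_or_nonempty with he | hne
  · refine ⟨P.r i + 1, by linarith, fun p hp z hz => ?_⟩
    by_contra h
    have : z ∈ A ∩ Metric.closedBall (P.c i) (P.r i + 1) :=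
      ⟨⟨p, hp, hz⟩, mem_closedBall_iff_norm.2 (not_le.1 h).le⟩
    rw [he] at this
    exact this
  · obtain ⟨z0, hz0, hmin⟩ := hc.exists_isMinOn hne (f := fun z : ℂ => ‖z - P.c i‖) (by fun_prop)
    refine ⟨‖z0 - P.c i‖, hAD z0 hz0.1, fun p hp z hz => ?_⟩
    have hzA : z ∈ A := ⟨p, hp, hz⟩
    by_cases h : ‖z - P.c i‖ ≤ P.r i + 1
    · exact hmin ⟨hzA, mem_closedBall_iff_norm.2 h⟩
    · have h3 := mem_closedBall_iff_norm.1 hz0.2
      linarith

/-- the centres -/
noncomputable def ctr (P : Par) (j : ℕ) : ℂ := if j = 0 then 0 else P.c j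

theorem ext_diff (P : Par) (f : OO P.D) {z : ℂ} (hz : (z : OnePoint ℂ) ∈ P.D) :
    DifferentiableAt ℂ (fun w : ℂ => ext (f : C(P.D, ℂ)) w) z := (f.2.1 z hz).differentiableAt

theorem ext_lim (P : Par) (f : OO P.D) :
    Tendsto (fun w : ℂ => ext (f : C(P.D, ℂ)) w) (Bornology.cobounded ℂ)
      (𝓝 ((f : C(P.D, ℂ)) ⟨∞, inf_mem P⟩)) := by
  have h1 : ContinuousAt (fun p : OnePoint ℂ => ext (f : C(P.D, ℂ)) p) ∞ := by
    have h2 : ContinuousOn (fun p : OnePoint ℂ => ext (f : C(P.D, ℂ)) p) P.D := by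
      rw [continuousOn_iff_continuous_domRestrict]
      have h3 : P.D.domRestrict (fun p : OnePoint ℂ => ext (f : C(P.D, ℂ)) p) =
          fun p : P.D => (f : C(P.D, ℂ)) p := by
        funext p
        exact ext_of_mem _ p.2
      rw [h3]
      exact (f : C(P.D, ℂ)).continuous
    exact h2.continuousAt (P.isOpen.mem_nhds (inf_mem P))
  have h4 : Tendsto (fun z : ℂ => (z : OnePoint ℂ)) (Bornology.cobounded ℂ)
      (𝓝 (∞ : OnePoint ℂ)) := by
    have := OnePoint.tendsto_coe_infty (X := ℂ)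
    rwa [Filter.coclosedCompact_eq_cocompact, ← Metric.cobounded_eq_cocompact] at this
  have h5 := h1.tendsto.comp h4
  rw [ext_of_mem _ (inf_mem P)] at h5
  exact h5

section

variable (P : Par) (hr8 : ∀ j, 1 ≤ j → P.r j ≤ (1 - P.q) / 8 * P.q ^ j)

include hr8 in
theorem app_out {l : ℕ} {z : ℂ} (h0 : P.ρ l ≤ ‖z‖)
    (h : ∀ j, 1 ≤ j → j ≤ l → P.r j < ‖z - P.c j‖) : (z : OnePoint ℂ) ∈ P.D := by
  refine coe_mem_dom.2 ?_
  have hq0 := P.q0
  have hq1 := P.q1
  rintro (hz | ⟨j, hj, hz⟩)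
  · rw [hz, norm_zero] at h0
    exact absurd h0 (not_le.2 (core_rho_pos P l))
  · by_cases hjl : j ≤ l
    · exact absurd hz (not_le.2 (h j hj hjl))
    · have h1 := hr8 j hj
      have h2 : P.q ^ j ≤ P.q ^ (l + 1) := pow_le_pow_of_le_one hq0.le hq1.le (by omega)
      have h3 : ‖z‖ ≤ ‖z - P.c j‖ + ‖P.c j‖ := by
        simpa using norm_add_le (z - P.c j) (P.c j)
      rw [core_normc] at h3
      have hz' : ‖z - P.c j‖ ≤ P.r j := hz
      have h4 : (1 - P.q) / 8 * P.q ^ j ≤ (1 - P.q) / 8 * P.q ^ (l + 1) :=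
        mul_le_mul_of_nonneg_left h2 (by linarith)
      have h5 : ‖z‖ ≤ P.q ^ (l + 1) * ((9 - P.q) / 8) := by linarith
      unfold Par.ρ at h0
      have h6 : 0 < P.q ^ l := by positivity
      rw [pow_succ] at h5
      have h7 : P.q ^ l * ((1 + P.q) / 2) ≤ P.q ^ l * (P.q * ((9 - P.q) / 8)) := by linarith
      have h8 := le_of_mul_le_mul_left h7 h6
      nlinarith

theorem app_cc {i j : ℕ} : P.q ^ i - P.q ^ j ≤ ‖P.c i - P.c j‖ := by
  have h1 := norm_sub_norm_le (P.c i) (P.c j)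
  rw [core_normc, core_normc] at h1
  exact h1

include hr8 in
/-- the discs are disjoint -/
theorem app_sep {l i j : ℕ} (hj : j ≤ l) (hij : i < j) :
    (if i = 0 then P.q ^ l * ((5 + 3 * P.q) / 8) else 2 * P.r i) + 2 * P.r j <
      ‖ctr P i - ctr P j‖ := by
  have hq0 := P.q0
  have hq1 := P.q1
  have hj0 : j ≠ 0 := by omega
  have hrj := hr8 j (by omega)
  unfold ctr
  rw [if_neg hj0]
  split_ifs with hi0
  · rw [zero_sub, norm_neg, core_normc]
    have h1 : P.q ^ l ≤ P.q ^ j := pow_le_pow_of_le_one hq0.le hq1.le hj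
    have h2 : 0 < P.q ^ j := by positivity
    have h3 : P.q ^ l * ((5 + 3 * P.q) / 8) ≤ P.q ^ j * ((5 + 3 * P.q) / 8) :=
      mul_le_mul_of_nonneg_right h1 (by positivity)
    nlinarith
  · have hri := hr8 i (by omega)
    refine lt_of_lt_of_le ?_ (app_cc P)
    have h1 : P.q ^ j ≤ P.q ^ (i + 1) := pow_le_pow_of_le_one hq0.le hq1.le (by omega)
    have h2 : 0 < P.q ^ i := by positivity
    rw [pow_succ] at h1
    have h3 : (1 - P.q) / 8 * P.q ^ j ≤ (1 - P.q) / 8 * P.q ^ i := by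
      refine mul_le_mul_of_nonneg_left ?_ (by linarith)
      nlinarith
    nlinarith [mul_pos (sub_pos.2 hq1) h2]

include hr8 in
/-- **Approximation with rate.** -/
theorem approx {k0 : ℕ} (hk0 : 1 ≤ k0) (N : Compacts P.D)
    (hN : ∀ p ∈ N, ∀ z : ℂ, (p : OnePoint ℂ) = z → 4 * P.q ^ k0 ≤ ‖z‖) :
    AppProp P.D N (3 * (P.L k0 + 1)) := by
  classical
  have hq0 := P.q0
  have hq1 := P.q1
  have hrk := P.r0 k0 hk0
  have hLk : 0 ≤ P.L k0 := by
    unfold Par.L
    refine Real.log_nonneg ?_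
    rw [le_div_iff₀ hrk, one_mul]
    exact (P.r1 k0 hk0).le.trans (pow_le_one₀ hq0.le hq1.le)
  -- `l`
  obtain ⟨l', hl'⟩ := exists_pow_lt_of_lt_one (show 0 < P.r k0 / 4 by positivity) hq1
  set l : ℕ := max k0 l' with hl
  have hρl : 4 * P.ρ l ≤ P.r k0 := by
    have h1 : P.q ^ l ≤ P.q ^ l' := pow_le_pow_of_le_one hq0.le hq1.le (le_max_right _ _)
    have h2 : P.ρ l ≤ P.q ^ l := by
      unfold Par.ρ
      have : 0 ≤ P.q ^ l := by positivity
      nlinarith
    linarith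
  have hρ0 := core_rho_pos P l
  -- the radii
  have hd : ∀ i : ℕ, ∃ d : ℝ, 1 ≤ i → (P.r i < d ∧ d ≤ 2 * P.r i ∧
      ∀ p ∈ N, ∀ z : ℂ, (p : OnePoint ℂ) = z → d ≤ ‖z - P.c i‖) := by
    intro i
    by_cases hi : 1 ≤ i
    · obtain ⟨d, h1, h2⟩ := farDisc P N hi
      have hr := P.r0 i hi
      refine ⟨min d (2 * P.r i), fun _ => ⟨lt_min h1 (by linarith), min_le_right _ _, ?_⟩⟩
      exact fun p hp z hz => (min_le_left _ _).trans (h2 p hp z hz)
    · exact ⟨0, fun h => absurd h hi⟩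
  choose d hd using hd
  set s : ℕ → ℝ := fun j => if j = 0 then P.ρ l else Real.sqrt (P.r j * d j) with hs
  set s' : ℕ → ℝ := fun j => if j = 0 then P.q ^ l * ((5 + 3 * P.q) / 8) else 2 * P.r j with hs'
  have hs0 : s 0 = P.ρ l := by simp [hs]
  have hsj : ∀ j, 1 ≤ j → P.r j < s j ∧ s j < d j ∧ s j * s j = P.r j * d j := by
    intro j hj
    obtain ⟨h1, h2, h3⟩ := hd j hj
    have hr := P.r0 j hj
    have hdj : 0 < d j := hr.trans h1
    have h4 : s j = Real.sqrt (P.r j * d j) := by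
      simp only [hs]
      rw [if_neg (by omega)]
    have h5 : s j * s j = P.r j * d j := by
      rw [h4]
      exact Real.mul_self_sqrt (by positivity)
    have h6 : 0 ≤ s j := by
      rw [h4]
      exact Real.sqrt_nonneg _
    refine ⟨?_, ?_, h5⟩
    · by_contra h
      have h7 := not_lt.1 h
      nlinarith
    · by_contra h
      have h7 := not_lt.1 h
      nlinarith
  have hspos : ∀ j, 0 < s j := by
    intro j
    rcases Nat.eq_zero_or_pos j with h | h
    · rw [h, hs0]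
      exact hρ0
    · exact (P.r0 j h).trans (hsj j h).1
  have hss : ∀ j ∈ Finset.range (l + 1), s j < s' j := by
    intro j _
    rcases Nat.eq_zero_or_pos j with h | h
    · subst h
      simp only [hs, hs', if_true]
      unfold Par.ρ
      have : 0 < P.q ^ l := by positivity
      nlinarith
    · have h1 := (hsj j h).2.1
      have h2 := (hd j h).2.1
      simp only [hs']
      rw [if_neg (by omega)]
      linarith
  have hsep : ∀ i ∈ Finset.range (l + 1), ∀ j ∈ Finset.range (l + 1), i ≠ j →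
      s' i + s' j < ‖ctr P i - ctr P j‖ := by
    intro i hi j hj hij
    rw [Finset.mem_range] at hi hj
    rcases lt_or_gt_of_ne hij with h | h
    · have h1 := app_sep P hr8 (l := l) (by omega) h
      simp only [hs']
      rw [if_neg (show j ≠ 0 by omega)]
      exact h1
    · have h1 := app_sep P hr8 (l := l) (by omega) h
      simp only [hs']
      rw [if_neg (show i ≠ 0 by omega), add_comm, norm_sub_rev]
      exact h1
  -- the circles are in `D`
  have hout : ∀ z : ℂ, (∀ j ∈ Finset.range (l + 1), s j ≤ ‖z - ctr P j‖) →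
      (z : OnePoint ℂ) ∈ P.D := by
    intro z hz
    refine app_out P hr8 (l := l) ?_ ?_
    · have := hz 0 (by simp)
      rw [hs0] at this
      simpa [ctr] using this
    · intro j hj hjl
      have := hz j (by rw [Finset.mem_range]; omega)
      have h1 := (hsj j hj).1
      unfold ctr at this
      rw [if_neg (by omega)] at this
      linarith
  have hcirc : ∀ j ∈ Finset.range (l + 1), ∀ z ∈ Metric.sphere (ctr P j) (s j),
      (z : OnePoint ℂ) ∈ P.D := by
    intro j hj z hz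
    have hz1 := mem_sphere_iff_norm.1 hz
    refine hout z fun i hi => ?_
    by_cases hij : i = j
    · subst hij
      exact hz1.ge
    · have h1 := hsep i hi j hj hij
      have h2 := hss i hi
      have h3 := hss j hj
      have h4 : ‖ctr P i - ctr P j‖ ≤ ‖z - ctr P j‖ + ‖z - ctr P i‖ := by
        calc ‖ctr P i - ctr P j‖ = ‖(z - ctr P j) - (z - ctr P i)‖ := by congr 1; ring
          _ ≤ _ := norm_sub_le _ _
      linarith
  set S : Set ℂ := ⋃ j ∈ Finset.range (l + 1), Metric.sphere (ctr P j) (s j) with hS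
  have hSc : IsCompact S := (Finset.range (l + 1)).isCompact_biUnion fun j _ => isCompact_sphere _ _
  have hSD : ∀ z ∈ S, (z : OnePoint ℂ) ∈ P.D := by
    intro z hz
    simp only [hS, mem_iUnion, exists_prop] at hz
    obtain ⟨j, hj, hz⟩ := hz
    exact hcirc j hj z hz
  set K' : Compacts P.D := mkK S hSc hSD ⊔ ⟨{⟨∞, inf_mem P⟩}, isCompact_singleton⟩ with hK'
  -- the pieces
  have hpiece : ∀ j : ℕ, ∃ C : ℝ, 0 ≤ C ∧ ∀ (F : ℂ → ℂ) (B R : ℝ),
      ContinuousOn F (Metric.sphere (ctr P j) (s j)) → 0 ≤ B → 0 ≤ R →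
      (∀ ζ ∈ Metric.sphere (ctr P j) (s j), ‖F ζ‖ ≤ B) → ∃ u : OO P.D,
        (u : C(P.D, ℂ)) ⟨∞, inf_mem P⟩ = 0 ∧
        (∀ (z : ℂ) (hz : (z : OnePoint ℂ) ∈ P.D), (⟨z, hz⟩ : P.D) ∈ N →
          ‖-cau (ctr P j) (s j) F z - (u : C(P.D, ℂ)) ⟨z, hz⟩‖ ≤ C * Real.exp (-R) * B) ∧
        ∀ p : P.D, ‖(u : C(P.D, ℂ)) p‖ ≤ C * Real.exp (3 * (P.L k0 + 1) * R) * B := by
    intro j
    rcases Nat.eq_zero_or_pos j with h | h
    · subst h
      have hc0 : ctr P 0 = 0 := by simp [ctr]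
      rw [hc0, hs0]
      obtain ⟨C, hC, h1⟩ := holeC P hk0 hρ0 hρl
      refine ⟨C, hC, fun F B R hF hB0 hR hB => ?_⟩
      obtain ⟨u, hu1, hu2, hu3⟩ := h1 F B R hF hB0 hR hB
      exact ⟨u, hu1, fun z hz hzN => hu2 z hz (hN _ hzN z rfl), hu3⟩
    · have hcj : ctr P j = P.c j := by
        unfold ctr
        rw [if_neg (by omega)]
      rw [hcj]
      obtain ⟨h1, h2, h3⟩ := hsj j h
      obtain ⟨C, hC, h4⟩ := hole P h h1 h2 h3
      refine ⟨C, hC, fun F B R hF hB0 hR hB => ?_⟩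
      obtain ⟨u, hu1, hu2, hu3⟩ := h4 F B R hF hB0 hR hB
      refine ⟨u, hu1, fun z hz hzN => hu2 z hz ((hd j h).2.2 _ hzN z rfl), fun p => ?_⟩
      refine (hu3 p).trans ?_
      have h5 : Real.exp R ≤ Real.exp (3 * (P.L k0 + 1) * R) := by
        refine Real.exp_le_exp.2 ?_
        nlinarith [mul_nonneg hLk hR]
      gcongr
  choose C hC0 hC using hpiece
  refine ⟨K', fun K => ⟨1 + ∑ j ∈ Finset.range (l + 1), C j, by
    have := Finset.sum_nonneg (s := Finset.range (l + 1)) (f := C) fun j _ => hC0 j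
    linarith, fun f B R hB0' hfB hR => ?_⟩⟩
  have hB0 : 0 ≤ B := hB0'.le
  have hsumC : 0 ≤ ∑ j ∈ Finset.range (l + 1), C j := Finset.sum_nonneg fun j _ => hC0 j
  set F : ℂ → ℂ := fun w => ext (f : C(P.D, ℂ)) w with hF
  set L : ℂ := (f : C(P.D, ℂ)) ⟨∞, inf_mem P⟩ with hL
  have hLB : ‖L‖ ≤ B := by
    refine (le_nrm K' _ ?_).trans hfB
    rw [hK']
    exact Or.inr rfl
  have hFB : ∀ j ∈ Finset.range (l + 1), ∀ ζ ∈ Metric.sphere (ctr P j) (s j), ‖F ζ‖ ≤ B := by
    intro j hj ζ hζ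
    have hζS : ζ ∈ S := by
      simp only [hS, mem_iUnion, exists_prop]
      exact ⟨j, hj, hζ⟩
    refine (le_nrm_mkK hSc hSD _ hζS).trans ?_
    exact (nrm_mono (by rw [hK']; exact fun p hp => Or.inl hp) _).trans hfB
  have hFd : ∀ z, (∀ j ∈ Finset.range (l + 1), s j ≤ ‖z - ctr P j‖) → DifferentiableAt ℂ F z :=
    fun z hz => ext_diff P f (hout z hz)
  have hFc : ∀ j ∈ Finset.range (l + 1), ContinuousOn F (Metric.sphere (ctr P j) (s j)) :=
    fun j hj z hz => (ext_diff P f (hcirc j hj z hz)).continuousAt.continuousWithinAt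
  have hu : ∀ j : ℕ, ∃ u : OO P.D, j ∈ Finset.range (l + 1) →
      ((u : C(P.D, ℂ)) ⟨∞, inf_mem P⟩ = 0 ∧
        (∀ (z : ℂ) (hz : (z : OnePoint ℂ) ∈ P.D), (⟨z, hz⟩ : P.D) ∈ N →
          ‖-cau (ctr P j) (s j) F z - (u : C(P.D, ℂ)) ⟨z, hz⟩‖ ≤ C j * Real.exp (-R) * B) ∧
        ∀ p : P.D, ‖(u : C(P.D, ℂ)) p‖ ≤ C j * Real.exp (3 * (P.L k0 + 1) * R) * B) := by
    intro j
    by_cases hj : j ∈ Finset.range (l + 1)
    · obtain ⟨u, hu⟩ := hC j F B R (hFc j hj) hB0 hR (hFB j hj)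
      exact ⟨u, fun _ => hu⟩
    · exact ⟨0, fun h => absurd h hj⟩
  choose u hu using hu
  set g : OO P.D := constO P.D P.isOpen L + ∑ j ∈ Finset.range (l + 1), u j with hg
  have hgp : ∀ p : P.D, (g : C(P.D, ℂ)) p = L + ∑ j ∈ Finset.range (l + 1),
      (u j : C(P.D, ℂ)) p := by
    intro p
    have h1 : (g : C(P.D, ℂ)) = (constO P.D P.isOpen L : C(P.D, ℂ)) +
        ((∑ j ∈ Finset.range (l + 1), u j : OO P.D) : C(P.D, ℂ)) := rfl
    rw [h1, core_coe_sum, ContinuousMap.add_apply, ContinuousMap.coe_sum, Finset.sum_apply,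
      constO_apply]
  refine ⟨g, ?_, ?_⟩
  · refine nrm_le N _ (by positivity) ?_
    rintro ⟨p, hp⟩ hpN
    rw [ContinuousMap.sub_apply, hgp]
    induction p using OnePoint.rec with
    | infty =>
      have h1 : ∑ j ∈ Finset.range (l + 1), (u j : C(P.D, ℂ)) ⟨∞, hp⟩ = 0 :=
        Finset.sum_eq_zero fun j hj => (hu j hj).1
      rw [h1, add_zero, hL, sub_self, norm_zero]
      positivity
    | coe z =>
      have hz : ∀ j ∈ Finset.range (l + 1), s j < ‖z - ctr P j‖ := by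
        intro j hj
        rcases Nat.eq_zero_or_pos j with h | h
        · subst h
          rw [hs0]
          have h1 := hN _ hpN z rfl
          have h2 := P.r1 k0 hk0
          have h3 : 0 < P.q ^ k0 := by positivity
          have h4 : ctr P 0 = 0 := by simp [ctr]
          rw [h4, sub_zero]
          linarith
        · have h1 := (hd j h).2.2 _ hpN z rfl
          have h2 := (hsj j h).2.1
          unfold ctr
          rw [if_neg (by omega)]
          linarith
      have h1 := gcf (ctr P) s s' (Finset.range (l + 1)) (fun j _ => hspos j) hss hsep F hFd L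
        (ext_lim P f) z hz
      have h2 : (f : C(P.D, ℂ)) ⟨z, hp⟩ = F z := (ext_of_mem _ hp).symm
      rw [h2, h1]
      have h3 : L - ∑ j ∈ Finset.range (l + 1), cau (ctr P j) (s j) F z -
          (L + ∑ j ∈ Finset.range (l + 1), (u j : C(P.D, ℂ)) ⟨z, hp⟩) =
          ∑ j ∈ Finset.range (l + 1), (-cau (ctr P j) (s j) F z - (u j : C(P.D, ℂ)) ⟨z, hp⟩) := by
        rw [Finset.sum_sub_distrib, Finset.sum_neg_distrib]
        ring
      rw [h3]
      refine (norm_sum_le _ _).trans ?_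
      calc ∑ j ∈ Finset.range (l + 1), ‖-cau (ctr P j) (s j) F z - (u j : C(P.D, ℂ)) ⟨z, hp⟩‖
          ≤ ∑ j ∈ Finset.range (l + 1), C j * Real.exp (-R) * B :=
            Finset.sum_le_sum fun j hj => (hu j hj).2.1 z hp hpN
        _ = (∑ j ∈ Finset.range (l + 1), C j) * Real.exp (-R) * B := by
            rw [Finset.sum_mul, Finset.sum_mul]
        _ ≤ _ := by
            gcongr
            linarith
  · refine nrm_le K _ (by positivity) ?_
    intro p _
    rw [hgp]
    refine (norm_add_le _ _).trans ?_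
    have h1 : ‖∑ j ∈ Finset.range (l + 1), (u j : C(P.D, ℂ)) p‖ ≤
        (∑ j ∈ Finset.range (l + 1), C j) * Real.exp (3 * (P.L k0 + 1) * R) * B := by
      refine (norm_sum_le _ _).trans ?_
      rw [Finset.sum_mul, Finset.sum_mul]
      exact Finset.sum_le_sum fun j hj => (hu j hj).2.2 p
    have h2 : ‖L‖ ≤ 1 * Real.exp (3 * (P.L k0 + 1) * R) * B := by
      have h3 : 1 ≤ Real.exp (3 * (P.L k0 + 1) * R) := Real.one_le_exp (by positivity)
      refine hLB.trans ?_
      nlinarith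
    calc _ ≤ 1 * Real.exp (3 * (P.L k0 + 1) * R) * B +
          (∑ j ∈ Finset.range (l + 1), C j) * Real.exp (3 * (P.L k0 + 1) * R) * B :=
          add_le_add h2 h1
      _ = _ := by ring

end

end Pool.Agent.Lib.MP_413903_an
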