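import Pool.Agent.Lib.MP_413903_an.T.Inv

/-!
# MP_413903_an, tame isomorphisms: the family of radii
-/

set_option autoImplicit false

namespace Pool.Agent.Lib.MP_413903_an

open Complex Set Filter Topology OnePoint NNReal TopologicalSpace

/-! ### The bits -/

open Classical in
/-- the bit of the block `b`: `1` if the binary digits of `b + 1` without the leading one are
`X 0, …, X (n - 1)` -/
noncomputable def fbit (X : ℕ → Bool) (b : ℕ) : ℕ :=
  if ∀ i < Nat.log 2 (b + 1), Nat.testBit (b + 1) i = X i then 1 else 0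

theorem fbit_le (X : ℕ → Bool) (b : ℕ) : fbit X b ≤ 1 := by
  unfold fbit
  split_ifs <;> simp

theorem fbit_diff {X Y : ℕ → Bool} {i0 n : ℕ} (h : X i0 ≠ Y i0) (hn : i0 < n) :
    ∃ b, 2 ^ n ≤ b + 1 ∧ b + 1 < 2 ^ (n + 1) ∧ fbit X b = 0 ∧ fbit Y b = 1 := by
  have hx := Nat.ofBits_lt_two_pow (fun i : Fin n => Y i)
  set x : ℕ := Nat.ofBits (fun i : Fin n => Y i) with hxd
  have hp : 0 < 2 ^ n := by positivity
  have hb : 2 ^ n + x - 1 + 1 = 2 ^ n + x := by omega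
  have hlog : Nat.log 2 (2 ^ n + x) = n :=
    Nat.log_eq_of_pow_le_of_lt_pow (by omega) (by rw [pow_succ]; omega)
  have hbit : ∀ i < n, Nat.testBit (2 ^ n + x) i = Y i := by
    intro i hi
    rw [Nat.testBit_two_pow_add_gt hi, hxd, Nat.testBit_ofBits_lt _ i hi]
  refine ⟨2 ^ n + x - 1, by omega, by rw [pow_succ]; omega, ?_, ?_⟩
  · unfold fbit
    rw [hb, hlog, if_neg]
    intro h1
    have h2 := h1 i0 hn
    rw [hbit i0 hn] at h2
    exact h h2.symm
  · unfold fbit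
    rw [hb, hlog, if_pos hbit]

section

variable (q : ℝ) (S : ℝ → ℝ)

/-- `c(m) = m log(1/q) + log(8/(1-q))`, so that `exp (-c(m)) = q^m (1-q)/8` -/
noncomputable def fc (m : ℕ) : ℝ := m * Real.log (1 / q) + Real.log (8 / (1 - q))

theorem fkap_ex (hq0 : 0 < q) (hq1 : q < 1) (m : ℕ) :
    ∃ k : ℕ, 1 ≤ k ∧ 4 * q ^ k ≤ Real.exp (-S (fc q m)) := by
  obtain ⟨k, hk⟩ := exists_pow_lt_of_lt_one (show 0 < Real.exp (-S (fc q m)) / 4 by positivity) hq1
  refine ⟨k + 1, by omega, ?_⟩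
  have h1 : q ^ (k + 1) ≤ q ^ k := pow_le_pow_of_le_one hq0.le hq1.le (by omega)
  linarith

open Classical in
/-- `4 q^κ ≤ exp (-S (c(m)))` -/
noncomputable def fkap (m : ℕ) : ℕ :=
  if h : ∃ k : ℕ, 1 ≤ k ∧ 4 * q ^ k ≤ Real.exp (-S (fc q m)) then Classical.choose h else 1

theorem fkap_spec (hq0 : 0 < q) (hq1 : q < 1) (m : ℕ) :
    1 ≤ fkap q S m ∧ 4 * q ^ (fkap q S m) ≤ Real.exp (-S (fc q m)) := by
  unfold fkap
  rw [dif_pos (fkap_ex q S hq0 hq1 m)]
  exact Classical.choose_spec (fkap_ex q S hq0 hq1 m)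

/-- the ends of the blocks -/
noncomputable def fM : ℕ → ℕ
  | 0 => 1
  | b + 1 => max (fM b + 1) (fkap q S (fM b))

theorem fM_succ (b : ℕ) : fM q S b + 1 ≤ fM q S (b + 1) := le_max_left _ _

theorem fM_kap (b : ℕ) : fkap q S (fM q S b) ≤ fM q S (b + 1) := le_max_right _ _

theorem fM_mono : Monotone (fM q S) :=
  monotone_nat_of_le_succ fun b => (Nat.le_succ _).trans (fM_succ q S b)

theorem fM_lt (b : ℕ) : b < fM q S b := by
  induction b with
  | zero => exact Nat.one_pos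
  | succ b ih =>
    have := fM_succ q S b
    omega

/-- `H(m) = c(m) + 2` -/
noncomputable def fH (m : ℕ) : ℝ := fc q m + 2

/-- the values -/
noncomputable def fV : ℕ → ℝ
  | 0 => 2 ^ (fM q S 1) * fH q (fM q S 1)
  | n + 1 => 10000 * (2 ^ (fM q S ((n + 1) / 2 + 1)) * fH q (fM q S ((n + 1) / 2 + 1))) *
      (fV n + 1)

theorem fblk_ex (j : ℕ) : ∃ b, j ≤ fM q S (b + 1) :=
  ⟨j, by
    have := fM_lt q S (j + 1)
    omega⟩

/-- the block of `j` -/
noncomputable def fblk (j : ℕ) : ℕ := Nat.find (fblk_ex q S j)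

theorem fblk_spec (j : ℕ) : j ≤ fM q S (fblk q S j + 1) := Nat.find_spec (fblk_ex q S j)

theorem fblk_le {j b : ℕ} (h : j ≤ fM q S (b + 1)) : fblk q S j ≤ b :=
  Nat.find_min' (fblk_ex q S j) h

theorem le_fblk {j b : ℕ} (h : fM q S b < j) : b ≤ fblk q S j := by
  by_contra hb
  have h1 : fblk q S j + 1 ≤ b := by omega
  have h2 := fM_mono q S h1
  have h3 := fblk_spec q S j
  omega

theorem fblk_mono : Monotone (fblk q S) := fun _ j hij =>
  fblk_le q S (hij.trans (fblk_spec q S j))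

/-- the index of the value at `j` -/
noncomputable def fidx (X : ℕ → Bool) (j : ℕ) : ℕ := 2 * fblk q S j + fbit X (fblk q S j)

theorem fidx_mono (X : ℕ → Bool) : Monotone (fidx q S X) := by
  intro i j hij
  have h1 := fblk_mono q S hij
  unfold fidx
  rcases h1.lt_or_eq with h | h
  · have h2 := fbit_le X (fblk q S i)
    have h3 : 0 ≤ fbit X (fblk q S j) := Nat.zero_le _
    omega
  · rw [h]

theorem fidx_div (X : ℕ → Bool) (j : ℕ) : fidx q S X j / 2 = fblk q S j := by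
  unfold fidx
  have h2 := fbit_le X (fblk q S j)
  omega

/-- `L_j = V (2 b + bit)` -/
noncomputable def fL (X : ℕ → Bool) (j : ℕ) : ℝ := fV q S (fidx q S X j)

/-- the radii -/
noncomputable def fr (X : ℕ → Bool) (j : ℕ) : ℝ := Real.exp (-fL q S X j)

variable (hq0 : 0 < q) (hq1 : q < 1)

include hq0 hq1

theorem flam_pos : 0 < Real.log (1 / q) := by
  refine Real.log_pos ?_
  rw [lt_div_iff₀ hq0]
  linarith

theorem fA_pos : 0 < Real.log (8 / (1 - q)) := by
  refine Real.log_pos ?_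
  rw [lt_div_iff₀ (by linarith)]
  linarith

theorem fc_pos (m : ℕ) : 0 < fc q m := by
  unfold fc
  have h1 := flam_pos q hq0 hq1
  have h2 := fA_pos q hq0 hq1
  positivity

theorem fc_mono : Monotone (fc q) := by
  intro a b hab
  unfold fc
  have h1 := flam_pos q hq0 hq1
  have h2 : (a : ℝ) ≤ b := by exact_mod_cast hab
  have := mul_le_mul_of_nonneg_right h2 h1.le
  linarith

theorem fH_one (m : ℕ) : 1 ≤ fH q m := by
  unfold fH
  have := fc_pos q hq0 hq1 m
  linarith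

theorem fH_mono : Monotone (fH q) := by
  intro a b hab
  unfold fH
  have := fc_mono q hq0 hq1 hab
  linarith

theorem fexp_c (m : ℕ) : Real.exp (-fc q m) = (1 - q) / 8 * q ^ m := by
  unfold fc
  have h1 : 0 < 1 - q := by linarith
  have h2 : Real.log (1 / q) = -Real.log q := by rw [one_div, Real.log_inv]
  have h3 : Real.log (8 / (1 - q)) = -Real.log ((1 - q) / 8) := by
    rw [← Real.log_inv, inv_div]
  rw [h2, h3]
  have h4 : -(↑m * -Real.log q + -Real.log ((1 - q) / 8)) =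
      Real.log ((1 - q) / 8) + m * Real.log q := by ring
  rw [h4, Real.exp_add, Real.exp_log (by positivity), Real.exp_nat_mul, Real.exp_log hq0]

/-- the factor `2^m H(m)` is at least `2^j H(j)` -/
theorem fG_le {j m : ℕ} (h : j ≤ m) : (2 : ℝ) ^ j * fH q j ≤ 2 ^ m * fH q m := by
  have h1 : (2 : ℝ) ^ j ≤ 2 ^ m := pow_le_pow_right₀ (by norm_num) h
  have h2 := fH_mono q hq0 hq1 h
  have h3 := fH_one q hq0 hq1 j
  exact mul_le_mul h1 h2 (by linarith) (by positivity)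

theorem fG_one (m : ℕ) : (1 : ℝ) ≤ 2 ^ m * fH q m := by
  have h1 : (1 : ℝ) ≤ 2 ^ m := one_le_pow₀ (by norm_num)
  have h3 := fH_one q hq0 hq1 m
  nlinarith

theorem fV_one (n : ℕ) : 1 ≤ fV q S n := by
  induction n with
  | zero => exact fG_one q hq0 hq1 _
  | succ n ih =>
    have h1 := fG_one q hq0 hq1 (fM q S ((n + 1) / 2 + 1))
    show 1 ≤ 10000 * (2 ^ (fM q S ((n + 1) / 2 + 1)) * fH q (fM q S ((n + 1) / 2 + 1))) *
      (fV q S n + 1)
    nlinarith

theorem fV_mono : Monotone (fV q S) := by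
  refine monotone_nat_of_le_succ fun n => ?_
  have h1 := fG_one q hq0 hq1 (fM q S ((n + 1) / 2 + 1))
  have h2 := fV_one q S hq0 hq1 n
  show fV q S n ≤ 10000 * (2 ^ (fM q S ((n + 1) / 2 + 1)) * fH q (fM q S ((n + 1) / 2 + 1))) *
    (fV q S n + 1)
  nlinarith

/-- `V n ≥ 2^j H(j)` if `j ≤ M (n / 2 + 1)` -/
theorem fV_G {n j : ℕ} (h : j ≤ fM q S (n / 2 + 1)) : 2 ^ j * fH q j ≤ fV q S n := by
  cases n with
  | zero => exact fG_le q hq0 hq1 h
  | succ n =>
    have h1 := fG_le q hq0 hq1 h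
    have h2 := fV_one q S hq0 hq1 n
    have h3 := fG_one q hq0 hq1 (fM q S ((n + 1) / 2 + 1))
    show 2 ^ j * fH q j ≤
      10000 * (2 ^ (fM q S ((n + 1) / 2 + 1)) * fH q (fM q S ((n + 1) / 2 + 1))) *
      (fV q S n + 1)
    nlinarith

/-- `V (n + 1) ≥ 10^4 2^j H(j) (V n + 1)` if `j ≤ M ((n + 1) / 2 + 1)` -/
theorem fV_G2 {n j : ℕ} (h : j ≤ fM q S ((n + 1) / 2 + 1)) :
    10000 * (2 ^ j * fH q j) * (fV q S n + 1) ≤ fV q S (n + 1) := by
  have h1 := fG_le q hq0 hq1 h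
  have h2 := fV_one q S hq0 hq1 n
  show 10000 * (2 ^ j * fH q j) * (fV q S n + 1) ≤
      10000 * (2 ^ (fM q S ((n + 1) / 2 + 1)) * fH q (fM q S ((n + 1) / 2 + 1))) *
      (fV q S n + 1)
  gcongr

theorem fL_G (X : ℕ → Bool) (j : ℕ) : 2 ^ j * fH q j ≤ fL q S X j := by
  unfold fL
  refine fV_G q S hq0 hq1 ?_
  rw [fidx_div]
  exact fblk_spec q S j

theorem fL_H (X : ℕ → Bool) (j : ℕ) : fH q j ≤ fL q S X j := by
  have h1 := fL_G q S hq0 hq1 X j
  have h2 : (1 : ℝ) ≤ 2 ^ j := one_le_pow₀ (by norm_num)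
  have h3 := fH_one q hq0 hq1 j
  nlinarith

theorem fL_pos (X : ℕ → Bool) (j : ℕ) : 0 < fL q S X j := by
  have h1 := fL_H q S hq0 hq1 X j
  have h3 := fH_one q hq0 hq1 j
  linarith

omit hq0 hq1 in
theorem fr_log (X : ℕ → Bool) (j : ℕ) : Real.log (1 / fr q S X j) = fL q S X j := by
  unfold fr
  rw [one_div, ← Real.exp_neg, neg_neg, Real.log_exp]

omit hq0 hq1 in
theorem fr_pos (X : ℕ → Bool) (j : ℕ) : 0 < fr q S X j := Real.exp_pos _

theorem fr_le (X : ℕ → Bool) (j : ℕ) : fr q S X j ≤ (1 - q) / 8 * q ^ j := by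
  rw [← fexp_c q hq0 hq1]
  unfold fr
  refine Real.exp_le_exp.2 ?_
  have h1 := fL_H q S hq0 hq1 X j
  unfold fH at h1
  linarith

theorem fr_lt (X : ℕ → Bool) (j : ℕ) : fr q S X j < q ^ j := by
  have h1 := fr_le q S hq0 hq1 X j
  have h2 : 0 < q ^ j := by positivity
  nlinarith

theorem fr_anti (X : ℕ → Bool) : Antitone (fr q S X) := by
  intro i j hij
  unfold fr
  refine Real.exp_le_exp.2 ?_
  have h1 : fL q S X i ≤ fL q S X j := fV_mono q S hq0 hq1 (fidx_mono q S X hij)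
  linarith

omit hq0 hq1 in
theorem fgeo : Summable fun j : ℕ => ((1 : ℝ) / 2) ^ j :=
  summable_geometric_of_lt_one (by norm_num) (by norm_num)

theorem fr_sum1 (X : ℕ → Bool) : Summable fun j : ℕ => (Real.log (1 / fr q S X j))⁻¹ := by
  refine Summable.of_nonneg_of_le (fun j => ?_) (fun j => ?_) (fgeo)
  · rw [fr_log q S]
    exact (inv_pos.2 (fL_pos q S hq0 hq1 X j)).le
  · rw [fr_log q S]
    have h1 := fL_G q S hq0 hq1 X j
    have h3 := fH_one q hq0 hq1 j
    have h4 : (0 : ℝ) < 2 ^ j := by positivity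
    have h5 : (2 : ℝ) ^ j ≤ fL q S X j := by nlinarith
    calc (fL q S X j)⁻¹ ≤ ((2 : ℝ) ^ j)⁻¹ := inv_anti₀ h4 h5
      _ = (1 / 2) ^ j := by rw [one_div, inv_pow]

theorem fr_sum2 (X : ℕ → Bool) : Summable fun j : ℕ => (j : ℝ) / Real.log (1 / fr q S X j) := by
  have hl := flam_pos q hq0 hq1
  refine Summable.of_nonneg_of_le (fun j => ?_) (fun j => ?_)
    ((fgeo).mul_left (Real.log (1 / q))⁻¹)
  · rw [fr_log q S]
    have := fL_pos q S hq0 hq1 X j
    positivity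
  · rw [fr_log q S]
    have h1 := fL_G q S hq0 hq1 X j
    have h2 : (j : ℝ) * Real.log (1 / q) ≤ fH q j := by
      unfold fH fc
      have := fA_pos q hq0 hq1
      linarith
    have h3 : (j : ℝ) ≤ fH q j * (Real.log (1 / q))⁻¹ := by
      rw [← div_eq_mul_inv, le_div_iff₀ hl]
      exact h2
    have h4 := fL_pos q S hq0 hq1 X j
    have h5 := fH_one q hq0 hq1 j
    have h6 : (0 : ℝ) < 2 ^ j := by positivity
    have hli : 0 < (Real.log (1 / q))⁻¹ := inv_pos.2 hl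
    calc (j : ℝ) / fL q S X j ≤ (fH q j * (Real.log (1 / q))⁻¹) / (2 ^ j * fH q j) :=
          div_le_div₀ (by positivity) h3 (by positivity) h1
      _ = (Real.log (1 / q))⁻¹ * (1 / 2) ^ j := by
          rw [one_div_pow]
          field_simp

/-- the parameters -/
noncomputable def fP (X : ℕ → Bool) : Par where
  q := q
  r := fr q S X
  q0 := hq0
  q1 := hq1
  r0 := fun j _ => fr_pos q S X j
  r1 := fun j _ => fr_lt q S hq0 hq1 X j
  sum := fr_sum2 q S hq0 hq1 X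

theorem fP_L (X : ℕ → Bool) (j : ℕ) : (fP q S hq0 hq1 X).L j = fL q S X j :=
  fr_log q S X j

/-- `L^X_κ ≤ V (2 b)` -/
theorem fL_small {X : ℕ → Bool} {b k : ℕ} (hb : fbit X b = 0) (hk : k ≤ fM q S (b + 1)) :
    fL q S X k ≤ fV q S (2 * b) := by
  unfold fL
  refine fV_mono q S hq0 hq1 ?_
  have h1 := fblk_le q S hk
  unfold fidx
  rcases h1.lt_or_eq with h | h
  · have := fbit_le X (fblk q S k)
    omega
  · rw [h, hb, add_zero]

/-- the terms `w^Y_k`, `k > M b` -/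
theorem fw_le {Y : ℕ → Bool} {b k : ℕ} (hb : fbit Y b = 1) (hk : fM q S b < k) :
    (fP q S hq0 hq1 Y).w k ≤ (1 / 2) ^ k * (1 / (10000 * (fV q S (2 * b) + 1))) := by
  have h1 := le_fblk q S hk
  have h2 : 2 * b + 1 ≤ fidx q S Y k := by
    unfold fidx
    rcases h1.lt_or_eq with h | h
    · omega
    · rw [← h, hb]
  obtain ⟨n, hn⟩ : ∃ n, fidx q S Y k = n + 1 := ⟨fidx q S Y k - 1, by omega⟩
  have h3 : 10000 * (2 ^ k * fH q k) * (fV q S n + 1) ≤ fL q S Y k := by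
    unfold fL
    rw [hn]
    refine fV_G2 q S hq0 hq1 ?_
    rw [← hn, fidx_div]
    exact fblk_spec q S k
  have h4 : fV q S (2 * b) ≤ fV q S n := fV_mono q S hq0 hq1 (by omega)
  have h5 := fH_one q hq0 hq1 k
  have h6 := fV_one q S hq0 hq1 (2 * b)
  have h7 : (0 : ℝ) < 2 ^ k := by positivity
  have h8 : 10000 * (2 ^ k * fH q k) * (fV q S (2 * b) + 1) ≤ fL q S Y k := by
    refine le_trans ?_ h3
    gcongr
  have h9 : (fP q S hq0 hq1 Y).h k ≤ fH q k := by
    show (k : ℝ) * Real.log (1 / q) + Real.log 3 ≤ fH q k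
    unfold fH fc
    have h10 := fA_pos q hq0 hq1
    have h11 : Real.log 3 ≤ 2 := by
      have := Real.log_le_sub_one_of_pos (show (0 : ℝ) < 3 by norm_num)
      linarith
    linarith
  have h12 : 0 ≤ (fP q S hq0 hq1 Y).h k := by
    show 0 ≤ (k : ℝ) * Real.log (1 / q) + Real.log 3
    have h13 := flam_pos q hq0 hq1
    have h14 : 0 ≤ Real.log 3 := Real.log_nonneg (by norm_num)
    positivity
  unfold Par.w
  rw [fP_L]
  calc (fP q S hq0 hq1 Y).h k / fL q S Y k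
      ≤ fH q k / (10000 * (2 ^ k * fH q k) * (fV q S (2 * b) + 1)) :=
        div_le_div₀ (by linarith) h9 (by positivity) h8
    _ = _ := by
        rw [one_div, inv_pow]
        field_simp

theorem fsum_le {Y : ℕ → Bool} {b : ℕ} (hb : fbit Y b = 1) (l : ℕ) :
    ∑ k ∈ Finset.Ioc (fM q S b) l, (fP q S hq0 hq1 Y).w k ≤
      1 / (10000 * (fV q S (2 * b) + 1)) := by
  have h6 := fV_one q S hq0 hq1 (2 * b)
  have h1 : ∑ k ∈ Finset.Ioc (fM q S b) l, (fP q S hq0 hq1 Y).w k ≤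
      ∑ k ∈ Finset.Ioc (fM q S b) l, (1 / 2 : ℝ) ^ k * (1 / (10000 * (fV q S (2 * b) + 1))) :=
    Finset.sum_le_sum fun k hk => fw_le q S hq0 hq1 hb (Finset.mem_Ioc.1 hk).1
  refine h1.trans ?_
  rw [← Finset.sum_mul]
  have h2 : ∑ k ∈ Finset.Ioc (fM q S b) l, (1 / 2 : ℝ) ^ k ≤ 1 := by
    have h3 : ∀ l : ℕ, ∑ k ∈ Finset.Ioc 0 l, (1 / 2 : ℝ) ^ k ≤ 1 := by
      intro l
      have h4 : ∑ k ∈ Finset.Ioc 0 l, (1 / 2 : ℝ) ^ k = 1 - (1 / 2) ^ l := by
        induction l with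
        | zero => simp
        | succ l ih =>
          rw [Finset.sum_Ioc_succ_top (Nat.zero_le l), ih, pow_succ]
          ring
      have h5 : (0 : ℝ) ≤ (1 / 2) ^ l := by positivity
      linarith
    refine le_trans ?_ (h3 l)
    refine Finset.sum_le_sum_of_subset_of_nonneg ?_ (fun _ _ _ => by positivity)
    exact Finset.Ioc_subset_Ioc_left (Nat.zero_le _)
  calc _ ≤ 1 * (1 / (10000 * (fV q S (2 * b) + 1))) :=
        mul_le_mul_of_nonneg_right h2 (by positivity)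
    _ = _ := one_mul _

end

end Pool.Agent.Lib.MP_413903_an
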