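import Mathlib

/-!
# MP_413903_an, tame isomorphisms: Cauchy's formula for finitely many holes

`F` differentiable outside finitely many disjoint discs, `F → L` at infinity:
`F z = L - ∑ (2πi)⁻¹ ∮ F ζ / (ζ - z) dζ`, the sum over the circles.
-/

set_option autoImplicit false

namespace Pool.Agent.Lib.MP_413903_an

open Complex Set Filter Topology Metric

/-- the Cauchy type integral over a circle -/
noncomputable def cau (c : ℂ) (s : ℝ) (F : ℂ → ℂ) (z : ℂ) : ℂ :=
  (2 * Real.pi * I : ℂ)⁻¹ • ∮ ζ in C(c, s), (ζ - z)⁻¹ * F ζ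

/-- the coefficients of the expansion of `cau` at infinity -/
noncomputable def cof (c : ℂ) (s : ℝ) (F : ℂ → ℂ) (m : ℕ) : ℂ :=
  (2 * Real.pi * I : ℂ)⁻¹ • ∮ ζ in C(c, s), (ζ - c) ^ m * F ζ

theorem cof_le {c : ℂ} {s B : ℝ} (hs : 0 < s) {F : ℂ → ℂ}
    (hB : ∀ ζ ∈ sphere c s, ‖F ζ‖ ≤ B) (m : ℕ) : ‖cof c s F m‖ ≤ s ^ (m + 1) * B := by
  unfold cof
  have h := circleIntegral.norm_two_pi_i_inv_smul_integral_le_of_norm_le_const (c := c) hs.le
    (f := fun ζ => (ζ - c) ^ m * F ζ) (C := s ^ m * B) (fun ζ hζ => by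
      rw [norm_mul, norm_pow, mem_sphere_iff_norm.1 hζ]
      exact mul_le_mul_of_nonneg_left (hB ζ hζ) (by positivity))
  refine h.trans (le_of_eq ?_)
  ring

theorem cau_ne {c z ζ : ℂ} {s : ℝ} (hz : s < ‖z - c‖) (hζ : ζ ∈ sphere c s) : ζ - z ≠ 0 := by
  intro h
  rw [sub_eq_zero] at h
  rw [← h, mem_sphere_iff_norm.1 hζ] at hz
  exact lt_irrefl _ hz

theorem cau_eq {c : ℂ} {s : ℝ} (hs : 0 < s) {F : ℂ → ℂ} (hF : ContinuousOn F (sphere c s))
    (M : ℕ) {z : ℂ} (hz : s < ‖z - c‖) :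
    cau c s F z + ∑ m ∈ Finset.range M, cof c s F m * ((z - c)⁻¹) ^ (m + 1) =
      (2 * Real.pi * I : ℂ)⁻¹ • ∮ ζ in C(c, s), ((ζ - c) * (z - c)⁻¹) ^ M * ((ζ - z)⁻¹ * F ζ) := by
  have hzc : z - c ≠ 0 := by
    intro h
    rw [h, norm_zero] at hz
    linarith
  have hi1 : CircleIntegrable (fun ζ => (ζ - z)⁻¹ * F ζ) c s := by
    refine ContinuousOn.circleIntegrable hs.le ?_
    refine ContinuousOn.mul ?_ hF
    exact (continuousOn_id.sub continuousOn_const).inv₀ fun ζ hζ => cau_ne hz hζ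
  have hi2 : ∀ m ∈ Finset.range M, CircleIntegrable
      (fun ζ => ((z - c)⁻¹) ^ (m + 1) * ((ζ - c) ^ m * F ζ)) c s := by
    intro m _
    refine ContinuousOn.circleIntegrable hs.le ?_
    refine ContinuousOn.mul continuousOn_const (ContinuousOn.mul ?_ hF)
    fun_prop
  have e1 : ∑ m ∈ Finset.range M, cof c s F m * ((z - c)⁻¹) ^ (m + 1) =
      (2 * Real.pi * I : ℂ)⁻¹ • ∮ ζ in C(c, s), ∑ m ∈ Finset.range M,
        ((z - c)⁻¹) ^ (m + 1) * ((ζ - c) ^ m * F ζ) := by
    rw [circleIntegral.integral_fun_sum hi2, Finset.smul_sum]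
    refine Finset.sum_congr rfl fun m _ => ?_
    rw [circleIntegral.integral_const_mul]
    unfold cof
    simp only [smul_eq_mul]
    ring
  have hi3 : CircleIntegrable (fun ζ => ∑ m ∈ Finset.range M,
      ((z - c)⁻¹) ^ (m + 1) * ((ζ - c) ^ m * F ζ)) c s := by
    refine ContinuousOn.circleIntegrable hs.le ?_
    refine continuousOn_finsetSum _ fun m _ => ?_
    refine ContinuousOn.mul continuousOn_const (ContinuousOn.mul ?_ hF)
    fun_prop
  rw [e1]
  unfold cau
  rw [← smul_add, ← circleIntegral.integral_add hi1 hi3]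
  congr 1
  refine circleIntegral.integral_congr hs.le fun ζ hζ => ?_
  have hζz := cau_ne hz hζ
  set u : ℂ := (ζ - c) * (z - c)⁻¹ with hu
  have e2 : ∀ m : ℕ, ((z - c)⁻¹) ^ (m + 1) * ((ζ - c) ^ m * F ζ) =
      (z - c)⁻¹ * u ^ m * F ζ := by
    intro m
    rw [hu, mul_pow, pow_succ]
    ring
  have e3 : ζ - z = (z - c) * (u - 1) := by
    rw [hu]
    field_simp
    ring
  have hu1 : u - 1 ≠ 0 := by
    intro h
    rw [h, mul_zero] at e3
    exact hζz e3
  have e4 : (∑ m ∈ Finset.range M, u ^ m) * (u - 1) = u ^ M - 1 := geom_sum_mul u M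
  simp only [e2]
  rw [← Finset.sum_mul, ← Finset.mul_sum, e3, mul_inv]
  have e5 : ∑ m ∈ Finset.range M, u ^ m = (u ^ M - 1) * (u - 1)⁻¹ := by
    rw [← e4]
    field_simp
  rw [e5]
  ring

theorem cau_tail {c : ℂ} {s B : ℝ} (hs : 0 < s) {F : ℂ → ℂ} (hF : ContinuousOn F (sphere c s))
    (hB : ∀ ζ ∈ sphere c s, ‖F ζ‖ ≤ B) (M : ℕ) {z : ℂ} (hz : s < ‖z - c‖) :
    ‖cau c s F z + ∑ m ∈ Finset.range M, cof c s F m * ((z - c)⁻¹) ^ (m + 1)‖ ≤
      (s / ‖z - c‖) ^ M * (s * B / (‖z - c‖ - s)) := by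
  rw [cau_eq hs hF M hz]
  have hz0 : 0 < ‖z - c‖ := hs.trans hz
  have hd : 0 < ‖z - c‖ - s := by linarith
  have h := circleIntegral.norm_two_pi_i_inv_smul_integral_le_of_norm_le_const (c := c) hs.le
    (f := fun ζ => ((ζ - c) * (z - c)⁻¹) ^ M * ((ζ - z)⁻¹ * F ζ))
    (C := (s / ‖z - c‖) ^ M * ((‖z - c‖ - s)⁻¹ * B)) (fun ζ hζ => by
      rw [norm_mul, norm_pow, norm_mul, norm_inv, mem_sphere_iff_norm.1 hζ, ← div_eq_mul_inv,
        norm_mul, norm_inv]
      refine mul_le_mul_of_nonneg_left ?_ (by positivity)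
      have h1 : ‖z - c‖ - s ≤ ‖ζ - z‖ := by
        have h2 : ‖z - c‖ ≤ ‖ζ - z‖ + ‖ζ - c‖ := by
          calc ‖z - c‖ = ‖(ζ - c) - (ζ - z)‖ := by congr 1; ring
            _ ≤ ‖ζ - c‖ + ‖ζ - z‖ := norm_sub_le _ _
            _ = _ := add_comm _ _
        rw [mem_sphere_iff_norm.1 hζ] at h2
        linarith
      exact mul_le_mul (inv_anti₀ hd h1) (hB ζ hζ) (norm_nonneg _) (by positivity))
  refine h.trans (le_of_eq ?_)
  rw [div_eq_mul_inv (s * B)]
  ring

theorem cau_norm_le {c : ℂ} {s B : ℝ} (hs : 0 < s) {F : ℂ → ℂ} (hF : ContinuousOn F (sphere c s))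
    (hB : ∀ ζ ∈ sphere c s, ‖F ζ‖ ≤ B) {z : ℂ} (hz : s < ‖z - c‖) :
    ‖cau c s F z‖ ≤ s * B / (‖z - c‖ - s) := by
  have := cau_tail hs hF hB 0 hz
  simpa using this

theorem cau_bound {c : ℂ} {s : ℝ} {F : ℂ → ℂ} (hF : ContinuousOn F (sphere c s)) :
    ∃ B : ℝ, 0 ≤ B ∧ ∀ ζ ∈ sphere c s, ‖F ζ‖ ≤ B := by
  obtain ⟨B, hB⟩ := (isCompact_sphere c s).exists_bound_of_continuousOn hF
  exact ⟨max B 0, le_max_right _ _, fun ζ hζ => (hB ζ hζ).trans (le_max_left _ _)⟩

/-- `cau` is differentiable outside the closed disc. -/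
theorem cau_diff_out {c : ℂ} {s : ℝ} (hs : 0 < s) {F : ℂ → ℂ} (hF : ContinuousOn F (sphere c s))
    {z : ℂ} (hz : s < ‖z - c‖) : DifferentiableAt ℂ (cau c s F) z := by
  obtain ⟨B, hB0, hB⟩ := cau_bound hF
  have hU : IsOpen {z : ℂ | s < ‖z - c‖} :=
    isOpen_lt continuous_const (continuous_norm.comp (continuous_id.sub continuous_const))
  have hl : TendstoLocallyUniformlyOn
      (fun (M : ℕ) (z : ℂ) => -∑ m ∈ Finset.range M, cof c s F m * ((z - c)⁻¹) ^ (m + 1))
      (cau c s F) atTop {z : ℂ | s < ‖z - c‖} := by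
    rw [tendstoLocallyUniformlyOn_iff_forall_isCompact hU]
    intro K hKU hK
    rcases K.eq_empty_or_nonempty with h | hne
    · subst h
      exact tendstoUniformlyOn_empty
    obtain ⟨z0, hz0, hmin⟩ := hK.exists_isMinOn hne
      (f := fun z : ℂ => ‖z - c‖) (by fun_prop)
    set d : ℝ := ‖z0 - c‖ with hd
    have hsd : s < d := hKU hz0
    have hd0 : 0 < d := hs.trans hsd
    rw [Metric.tendstoUniformlyOn_iff]
    intro ε hε
    have ht : Tendsto (fun M : ℕ => (s / d) ^ M * (s * B / (d - s))) atTop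
        (𝓝 (0 * (s * B / (d - s)))) := by
      refine Tendsto.mul_const _ ?_
      refine tendsto_pow_atTop_nhds_zero_of_lt_one (by positivity) ?_
      rw [div_lt_one hd0]
      exact hsd
    rw [zero_mul] at ht
    filter_upwards [ht.eventually (gt_mem_nhds hε)] with M hM z hzK
    have hz1 : d ≤ ‖z - c‖ := hmin hzK
    have hz2 : s < ‖z - c‖ := hsd.trans_le hz1
    rw [dist_eq_norm, sub_neg_eq_add]
    refine (cau_tail hs hF hB M hz2).trans_lt (lt_of_le_of_lt ?_ hM)
    have h1 : s / ‖z - c‖ ≤ s / d := div_le_div_of_nonneg_left hs.le hd0 hz1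
    have h2 : s * B / (‖z - c‖ - s) ≤ s * B / (d - s) :=
      div_le_div_of_nonneg_left (by positivity) (by linarith) (by linarith)
    refine mul_le_mul (pow_le_pow_left₀ (by positivity) h1 M) h2 ?_ (by positivity)
    have : 0 < ‖z - c‖ - s := by linarith
    positivity
  have h2 : DifferentiableOn ℂ (cau c s F) {z : ℂ | s < ‖z - c‖} := by
    refine hl.differentiableOn (Eventually.of_forall fun M => ?_) hU
    intro w hw
    have hw0 : w - c ≠ 0 := by
      intro h
      have hw' : s < ‖w - c‖ := hw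
      rw [h, norm_zero] at hw'
      linarith
    refine DifferentiableAt.differentiableWithinAt ?_
    refine DifferentiableAt.neg (DifferentiableAt.fun_sum fun m _ => ?_)
    refine DifferentiableAt.const_mul (DifferentiableAt.pow ?_ _) _
    exact (differentiableAt_id.sub_const c).inv hw0
  exact h2.differentiableAt (hU.mem_nhds hz)

theorem cau_tendsto {c : ℂ} {s : ℝ} (hs : 0 < s) {F : ℂ → ℂ} (hF : ContinuousOn F (sphere c s)) :
    Tendsto (cau c s F) (Bornology.cobounded ℂ) (𝓝 0) := by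
  obtain ⟨B, hB0, hB⟩ := cau_bound hF
  rw [tendsto_zero_iff_norm_tendsto_zero]
  have h1 : Tendsto (fun z : ℂ => ‖z - c‖ - s) (Bornology.cobounded ℂ) atTop := by
    refine tendsto_atTop_add_const_right _ (-s) ?_
    have h2 : Tendsto (fun z : ℂ => z - c) (Bornology.cobounded ℂ) (Bornology.cobounded ℂ) := by
      simp [sub_eq_add_neg]
    exact tendsto_norm_cobounded_atTop.comp h2
  have h3 : Tendsto (fun z : ℂ => s * B / (‖z - c‖ - s)) (Bornology.cobounded ℂ) (𝓝 0) :=
    h1.const_div_atTop _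
  refine squeeze_zero' (Eventually.of_forall fun z => norm_nonneg _) ?_ h3
  filter_upwards [h1.eventually (eventually_gt_atTop 0)] with z hz
  exact cau_norm_le hs hF hB (by linarith)

/-- `cau` is differentiable inside the open disc. -/
theorem cau_diff_in {c : ℂ} {s : ℝ} (hs : 0 < s) {F : ℂ → ℂ} (hF : ContinuousOn F (sphere c s))
    {z : ℂ} (hz : ‖z - c‖ < s) : DifferentiableAt ℂ (cau c s F) z := by
  obtain ⟨t, rfl⟩ : ∃ t : NNReal, (t : ℝ) = s := ⟨s.toNNReal, Real.coe_toNNReal s hs.le⟩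
  have hF' : CircleIntegrable F c t := hF.circleIntegrable hs.le
  have h := hasFPowerSeriesOn_cauchy_integral (c := c) (R := t) hF' (by exact_mod_cast hs)
  have h2 : z ∈ Metric.eball c (t : ENNReal) := by
    rw [Metric.mem_eball, edist_nndist]
    have h4 : nndist z c < t := by
      rw [← NNReal.coe_lt_coe, coe_nndist, dist_eq_norm]
      exact hz
    exact_mod_cast h4
  have h3 := (h.analyticAt_of_mem h2).differentiableAt
  exact h3

/-- Cauchy's formula for an annulus. -/
theorem cau_annulus {c : ℂ} {s s' : ℝ} (hs : 0 < s) {F : ℂ → ℂ}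
    (hF : ∀ z, s ≤ ‖z - c‖ → ‖z - c‖ ≤ s' → DifferentiableAt ℂ F z) {z : ℂ} (h1 : s < ‖z - c‖)
    (h2 : ‖z - c‖ < s') : cau c s' F z - cau c s F z = F z := by
  have hs' : 0 < s' := hs.trans (h1.trans h2)
  have hss : s ≤ s' := (h1.trans h2).le
  have hFc : ContinuousOn F (sphere c s) := fun w hw =>
    (hF w (mem_sphere_iff_norm.1 hw).ge ((mem_sphere_iff_norm.1 hw).le.trans hss)
      ).continuousAt.continuousWithinAt
  have hFc' : ContinuousOn F (sphere c s') := fun w hw =>
    (hF w (hss.trans (mem_sphere_iff_norm.1 hw).ge) (mem_sphere_iff_norm.1 hw).le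
      ).continuousAt.continuousWithinAt
  have hz : DifferentiableAt ℂ F z := hF z h1.le h2.le
  have hg : (∮ ζ in C(c, s'), dslope F z ζ) = ∮ ζ in C(c, s), dslope F z ζ := by
    refine circleIntegral_eq_of_differentiable_on_annulus_off_countable hs hss
      (countable_singleton z) ?_ ?_
    · intro w hw
      have hw1 : ‖w - c‖ ≤ s' := mem_closedBall_iff_norm.1 hw.1
      have hw2 : s ≤ ‖w - c‖ := not_lt.1 fun h => hw.2 (mem_ball_iff_norm.2 h)
      by_cases hwz : w = z
      · subst hwz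
        exact (continuousAt_dslope_same.2 hz).continuousWithinAt
      · exact ((continuousAt_dslope_of_ne hwz).2 (hF w hw2 hw1).continuousAt).continuousWithinAt
    · rintro w ⟨hw, hwz⟩
      have hw1 : ‖w - c‖ < s' := mem_ball_iff_norm.1 hw.1
      have hw2 : s < ‖w - c‖ := not_le.1 fun h => hw.2 (mem_closedBall_iff_norm.2 h)
      exact (differentiableAt_dslope_of_ne hwz).2 (hF w hw2.le hw1.le)
  have hne' : ∀ ζ ∈ sphere c s', ζ ≠ z := by
    intro ζ hζ h
    rw [h] at hζ
    rw [mem_sphere_iff_norm.1 hζ] at h2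
    exact lt_irrefl _ h2
  have hne : ∀ ζ ∈ sphere c s, ζ ≠ z := by
    intro ζ hζ h
    rw [h] at hζ
    rw [mem_sphere_iff_norm.1 hζ] at h1
    exact lt_irrefl _ h1
  have hds : ∀ ζ, ζ ≠ z → dslope F z ζ = (ζ - z)⁻¹ * F ζ - (ζ - z)⁻¹ * F z := by
    intro ζ hζ
    rw [dslope_of_ne _ hζ, slope_def_module, smul_eq_mul]
    ring
  have hi : ∀ {a : ℝ}, 0 < a → (∀ ζ ∈ sphere c a, ζ ≠ z) → ContinuousOn F (sphere c a) →
      (∮ ζ in C(c, a), dslope F z ζ) =
        (∮ ζ in C(c, a), (ζ - z)⁻¹ * F ζ) - (∮ ζ in C(c, a), (ζ - z)⁻¹) * F z := by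
    intro a ha hn hc
    have hc1 : ContinuousOn (fun ζ : ℂ => (ζ - z)⁻¹) (sphere c a) :=
      (continuousOn_id.sub continuousOn_const).inv₀ fun ζ hζ => sub_ne_zero.2 (hn ζ hζ)
    have hi1 : CircleIntegrable (fun ζ => (ζ - z)⁻¹ * F ζ) c a :=
      (hc1.mul hc).circleIntegrable ha.le
    have hi2 : CircleIntegrable (fun ζ => (ζ - z)⁻¹ * F z) c a :=
      (hc1.mul continuousOn_const).circleIntegrable ha.le
    have e1 : (∮ ζ in C(c, a), (ζ - z)⁻¹) * F z = ∮ ζ in C(c, a), (ζ - z)⁻¹ * F z := by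
      rw [mul_comm, ← circleIntegral.integral_const_mul]
      refine circleIntegral.integral_congr ha.le fun ζ _ => ?_
      exact mul_comm _ _
    rw [e1, ← circleIntegral.integral_sub hi1 hi2]
    exact circleIntegral.integral_congr ha.le fun ζ hζ => hds ζ (hn ζ hζ)
  rw [hi hs' hne' hFc', hi hs hne hFc,
    circleIntegral.integral_sub_inv_of_mem_ball (mem_ball_iff_norm.2 h2)] at hg
  have h0 : (∮ ζ in C(c, s), (ζ - z)⁻¹) = 0 := by
    refine circleIntegral_eq_zero_of_differentiable_on_off_countable hs.le countable_empty ?_ ?_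
    · intro w hw
      have hw1 : w - z ≠ 0 := by
        intro h
        rw [sub_eq_zero] at h
        subst h
        exact absurd (mem_closedBall_iff_norm.1 hw) (not_le.2 h1)
      exact (((continuousAt_id.sub continuousAt_const).inv₀ hw1)).continuousWithinAt
    · rintro w ⟨hw, -⟩
      have hw1 : w - z ≠ 0 := by
        intro h
        rw [sub_eq_zero] at h
        subst h
        exact absurd (mem_ball_iff_norm.1 hw) (not_lt.2 h1.le)
      exact (differentiableAt_id.sub_const z).inv hw1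
  rw [h0, zero_mul, sub_zero] at hg
  unfold cau
  rw [← hg]
  have hpi : (2 * Real.pi * I : ℂ) ≠ 0 := by
    simp [Real.pi_ne_zero]
  simp only [smul_eq_mul]
  field_simp
  ring

/-- The Cauchy integral over a circle of a function differentiable in the disc, at a point outside. -/
theorem cau_zero {c : ℂ} {s : ℝ} (hs : 0 < s) {g : ℂ → ℂ}
    (hg : ∀ w, ‖w - c‖ ≤ s → DifferentiableAt ℂ g w) {z : ℂ} (hz : s < ‖z - c‖) :
    cau c s g z = 0 := by
  unfold cau
  have hne : ∀ w, ‖w - c‖ ≤ s → w - z ≠ 0 := by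
    intro w hw h
    rw [sub_eq_zero] at h
    subst h
    exact absurd hw (not_le.2 hz)
  rw [circleIntegral_eq_zero_of_differentiable_on_off_countable hs.le countable_empty, smul_zero]
  · intro w hw
    have hw1 := mem_closedBall_iff_norm.1 hw
    have h2 : ContinuousAt (fun ζ : ℂ => (ζ - z)⁻¹) w :=
      (continuousAt_id.sub continuousAt_const).inv₀ (hne w hw1)
    exact (h2.mul (hg w hw1).continuousAt).continuousWithinAt
  · rintro w ⟨hw, -⟩
    have hw1 := (mem_ball_iff_norm.1 hw).le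
    have h2 : DifferentiableAt ℂ (fun ζ : ℂ => (ζ - z)⁻¹) w :=
      (differentiableAt_id.sub_const z).inv (hne w hw1)
    exact h2.mul (hg w hw1)

theorem cau_add {c : ℂ} {s : ℝ} (hs : 0 < s) {f g : ℂ → ℂ} (hf : ContinuousOn f (sphere c s))
    (hg : ContinuousOn g (sphere c s)) {z : ℂ} (hz : s < ‖z - c‖) :
    cau c s (fun w => f w + g w) z = cau c s f z + cau c s g z := by
  have hc : ContinuousOn (fun ζ : ℂ => (ζ - z)⁻¹) (sphere c s) :=
    (continuousOn_id.sub continuousOn_const).inv₀ fun ζ hζ => cau_ne hz hζ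
  have h1 : CircleIntegrable (fun ζ : ℂ => (ζ - z)⁻¹ * f ζ) c s :=
    (hc.mul hf).circleIntegrable hs.le
  have h2 : CircleIntegrable (fun ζ : ℂ => (ζ - z)⁻¹ * g ζ) c s :=
    (hc.mul hg).circleIntegrable hs.le
  unfold cau
  rw [← smul_add, ← circleIntegral.integral_add h1 h2]
  congr 1
  exact circleIntegral.integral_congr hs.le fun ζ _ => mul_add _ _ _

theorem cau_congr {c : ℂ} {s : ℝ} (hs : 0 < s) {f g : ℂ → ℂ} (h : ∀ w, ‖w - c‖ = s → f w = g w)
    (z : ℂ) : cau c s f z = cau c s g z := by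
  unfold cau
  congr 1
  refine circleIntegral.integral_congr hs.le fun ζ hζ => ?_
  show (ζ - z)⁻¹ * f ζ = (ζ - z)⁻¹ * g ζ
  rw [h ζ (mem_sphere_iff_norm.1 hζ)]

/-- **Cauchy's formula for finitely many holes.** -/
theorem gcf (c : ℕ → ℂ) (s s' : ℕ → ℝ) (J : Finset ℕ) : (∀ j ∈ J, 0 < s j) →
    (∀ j ∈ J, s j < s' j) → (∀ i ∈ J, ∀ j ∈ J, i ≠ j → s' i + s' j < ‖c i - c j‖) →
    ∀ F : ℂ → ℂ, (∀ z, (∀ j ∈ J, s j ≤ ‖z - c j‖) → DifferentiableAt ℂ F z) →
    ∀ L : ℂ, Tendsto F (Bornology.cobounded ℂ) (𝓝 L) → ∀ z, (∀ j ∈ J, s j < ‖z - c j‖) →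
      F z = L - ∑ j ∈ J, cau (c j) (s j) F z := by
  classical
  induction J using Finset.induction_on with
  | empty =>
    intro _ _ _ F hF L hL z _
    have h1 : Differentiable ℂ F := fun w => hF w (by simp)
    rw [Metric.cobounded_eq_cocompact] at hL
    rw [Finset.sum_empty, sub_zero]
    exact h1.apply_eq_of_tendsto_cocompact z hL
  | insert a J ha ih =>
    intro hs hss hd F hF L hL z hz
    have hsa : 0 < s a := hs a (Finset.mem_insert_self _ _)
    have hssa : s a < s' a := hss a (Finset.mem_insert_self _ _)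
    have hJ : ∀ j ∈ J, j ∈ insert a J := fun j hj => Finset.mem_insert_of_mem hj
    have hda : ∀ j ∈ J, s' a + s' j < ‖c a - c j‖ := fun j hj =>
      hd a (Finset.mem_insert_self _ _) j (hJ j hj) (by rintro rfl; exact ha hj)
    have hins : ∀ w, s a ≤ ‖w - c a‖ → (∀ j ∈ J, s j ≤ ‖w - c j‖) → DifferentiableAt ℂ F w := by
      intro w h1 h2
      refine hF w fun j hj => ?_
      rcases Finset.mem_insert.1 hj with rfl | h
      · exact h1
      · exact h2 j h
    -- triangle inequalities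
    have ht1 : ∀ j ∈ J, ∀ w, ‖w - c a‖ ≤ s' a → s j ≤ ‖w - c j‖ := by
      intro j hj w hw
      have h1 : ‖c a - c j‖ ≤ ‖w - c j‖ + ‖w - c a‖ := by
        calc ‖c a - c j‖ = ‖(w - c j) - (w - c a)‖ := by congr 1; ring
          _ ≤ _ := norm_sub_le _ _
      have := hda j hj
      have := hss j (hJ j hj)
      linarith
    have ht2 : ∀ j ∈ J, ∀ w, ‖w - c j‖ ≤ s j → s' a < ‖w - c a‖ := by
      intro j hj w hw
      have h1 : ‖c a - c j‖ ≤ ‖w - c j‖ + ‖w - c a‖ := by
        calc ‖c a - c j‖ = ‖(w - c j) - (w - c a)‖ := by congr 1; ring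
          _ ≤ _ := norm_sub_le _ _
      have := hda j hj
      have := hss j (hJ j hj)
      linarith
    have hann : ∀ w, s a ≤ ‖w - c a‖ → ‖w - c a‖ ≤ s' a → DifferentiableAt ℂ F w :=
      fun w h1 h2 => hins w h1 fun j hj => ht1 j hj w h2
    have hFa : ContinuousOn F (sphere (c a) (s a)) := fun w hw =>
      (hann w (mem_sphere_iff_norm.1 hw).ge ((mem_sphere_iff_norm.1 hw).le.trans hssa.le)
        ).continuousAt.continuousWithinAt
    have hFa' : ContinuousOn F (sphere (c a) (s' a)) := fun w hw =>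
      (hann w (hssa.le.trans (mem_sphere_iff_norm.1 hw).ge) (mem_sphere_iff_norm.1 hw).le
        ).continuousAt.continuousWithinAt
    set P : ℂ → ℂ := cau (c a) (s a) F with hP
    set G : ℂ → ℂ := fun w => if ‖w - c a‖ < s' a then cau (c a) (s' a) F w else F w + P w
      with hG
    have hG1 : ∀ w, s a < ‖w - c a‖ → G w = F w + P w := by
      intro w hw
      simp only [hG]
      split_ifs with h
      · have := cau_annulus hsa hann hw h
        rw [← this, hP]
        ring
      · rfl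
    have hG2 : ∀ w, ‖w - c a‖ < s' a → DifferentiableAt ℂ G w := by
      intro w hw
      have h1 : DifferentiableAt ℂ (cau (c a) (s' a) F) w := cau_diff_in (hsa.trans hssa) hFa' hw
      refine h1.congr_of_eventuallyEq ?_
      have hU : IsOpen {z : ℂ | ‖z - c a‖ < s' a} :=
        isOpen_lt (continuous_norm.comp (continuous_id.sub continuous_const)) continuous_const
      filter_upwards [hU.mem_nhds hw] with x hx
      have hx' : ‖x - c a‖ < s' a := hx
      simp only [hG, if_pos hx']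
    have hG3 : ∀ w, s a < ‖w - c a‖ → DifferentiableAt ℂ F w → DifferentiableAt ℂ G w := by
      intro w hw hFw
      have h1 : DifferentiableAt ℂ (fun x => F x + P x) w :=
        hFw.add (cau_diff_out hsa hFa hw)
      refine h1.congr_of_eventuallyEq ?_
      have hU : IsOpen {z : ℂ | s a < ‖z - c a‖} :=
        isOpen_lt continuous_const (continuous_norm.comp (continuous_id.sub continuous_const))
      filter_upwards [hU.mem_nhds hw] with x hx
      exact hG1 x hx
    have hG4 : ∀ w, (∀ j ∈ J, s j ≤ ‖w - c j‖) → DifferentiableAt ℂ G w := by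
      intro w hw
      by_cases h : ‖w - c a‖ < s' a
      · exact hG2 w h
      · have h1 : s a < ‖w - c a‖ := hssa.trans_le (not_lt.1 h)
        exact hG3 w h1 (hins w h1.le hw)
    have hG5 : Tendsto G (Bornology.cobounded ℂ) (𝓝 L) := by
      have h1 : Tendsto (fun w => F w + P w) (Bornology.cobounded ℂ) (𝓝 (L + 0)) :=
        hL.add (cau_tendsto hsa hFa)
      rw [add_zero] at h1
      refine h1.congr' ?_
      have h2 : Tendsto (fun z : ℂ => ‖z - c a‖) (Bornology.cobounded ℂ) atTop := by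
        have h2 : Tendsto (fun z : ℂ => z - c a) (Bornology.cobounded ℂ)
            (Bornology.cobounded ℂ) := by
          simp [sub_eq_add_neg]
        exact tendsto_norm_cobounded_atTop.comp h2
      filter_upwards [h2.eventually (eventually_gt_atTop (s a))] with w hw
      exact (hG1 w hw).symm
    have hih := ih (fun j hj => hs j (hJ j hj)) (fun j hj => hss j (hJ j hj))
      (fun i hi j hj => hd i (hJ i hi) j (hJ j hj)) G hG4 L hG5 z (fun j hj => hz j (hJ j hj))
    have hza : s a < ‖z - c a‖ := hz a (Finset.mem_insert_self _ _)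
    have hsum : ∑ j ∈ J, cau (c j) (s j) G z = ∑ j ∈ J, cau (c j) (s j) F z := by
      refine Finset.sum_congr rfl fun j hj => ?_
      have hsj := hs j (hJ j hj)
      have hzj := hz j (hJ j hj)
      have hPd : ∀ w, ‖w - c j‖ ≤ s j → DifferentiableAt ℂ P w := fun w hw =>
        cau_diff_out hsa hFa (hssa.trans (ht2 j hj w hw))
      have hFd : ContinuousOn F (sphere (c j) (s j)) := by
        intro w hw
        have h1 := mem_sphere_iff_norm.1 hw
        refine (hins w (hssa.trans (ht2 j hj w h1.le)).le ?_).continuousAt.continuousWithinAt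
        intro i hi
        by_cases hij : i = j
        · subst hij
          exact h1.ge
        · have h2 := hd i (hJ i hi) j (hJ j hj) hij
          have h3 : ‖c i - c j‖ ≤ ‖w - c j‖ + ‖w - c i‖ := by
            calc ‖c i - c j‖ = ‖(w - c j) - (w - c i)‖ := by congr 1; ring
              _ ≤ _ := norm_sub_le _ _
          have h4 := hss i (hJ i hi)
          have h5 := hss j (hJ j hj)
          linarith
      have hPc : ContinuousOn P (sphere (c j) (s j)) := fun w hw =>
        (hPd w (mem_sphere_iff_norm.1 hw).le).continuousAt.continuousWithinAt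
      rw [cau_congr hsj (f := G) (g := fun w => F w + P w)
        (fun w hw => hG1 w (hssa.trans (ht2 j hj w hw.le))) z, cau_add hsj hFd hPc hzj,
        cau_zero hsj hPd hzj, add_zero]
    rw [hsum, hG1 z hza] at hih
    rw [Finset.sum_insert ha]
    have : F z = L - ∑ j ∈ J, cau (c j) (s j) F z - P z := by
      rw [← hih]
      ring
    rw [this, hP]
    ring

end Pool.Agent.Lib.MP_413903_an
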