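import Pool.Agent.Lib.MP_413903_an.T.GCF
import Pool.Agent.Lib.MP_413903_an.Core
import Pool.Agent.Lib.MP_413903_an.Bin

/-!
# MP_413903_an, tame isomorphisms: approximation of the part of a function at one hole
-/

set_option autoImplicit false

namespace Pool.Agent.Lib.MP_413903_an

open Complex Set Filter Topology OnePoint NNReal TopologicalSpace

theorem hole_geom {x : ℝ} (hx0 : 0 ≤ x) (hx : x ≤ 1 / 2) (M : ℕ) :
    ∑ m ∈ Finset.range M, x ^ (m + 1) ≤ 1 := by
  have h : ∀ M : ℕ, ∑ m ∈ Finset.range M, x ^ (m + 1) ≤ 1 - (1 / 2) ^ M := by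
    intro M
    induction M with
    | zero => simp
    | succ M ih =>
      rw [Finset.sum_range_succ]
      have h1 : x ^ (M + 1) ≤ (1 / 2) ^ (M + 1) := pow_le_pow_left₀ hx0 hx _
      have h2 : ((1 : ℝ) / 2) ^ M = 2 * (1 / 2) ^ (M + 1) := by
        rw [pow_succ]
        ring
      linarith
  have h1 := h M
  have h2 : (0 : ℝ) ≤ (1 / 2) ^ M := by positivity
  linarith

theorem hole_geom2 {x : ℝ} (hx : 1 < x) (M : ℕ) :
    ∑ m ∈ Finset.range M, x ^ (m + 1) ≤ x ^ (M + 1) / (x - 1) := by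
  have hx1 : 0 < x - 1 := by linarith
  rw [le_div_iff₀ hx1]
  have h1 : ∑ m ∈ Finset.range M, x ^ (m + 1) = x * ∑ m ∈ Finset.range M, x ^ m := by
    rw [Finset.mul_sum]
    exact Finset.sum_congr rfl fun m _ => pow_succ' _ _
  rw [h1, mul_assoc, geom_sum_mul, pow_succ']
  nlinarith

/-- the sum of the first `M` terms of the expansion at the hole `i` -/
noncomputable def holeU (P : Par) {i : ℕ} (hi : 1 ≤ i) (a : ℕ → ℂ) (M : ℕ) : OO P.D :=
  ∑ m ∈ Finset.range M, a m • pw P.isOpen (P.c i) (core_c_notMem P hi) (m + 1) (by omega)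

theorem holeU_apply (P : Par) {i : ℕ} (hi : 1 ≤ i) (a : ℕ → ℂ) (M : ℕ) (p : P.D) :
    (holeU P hi a M : C(P.D, ℂ)) p = ∑ m ∈ Finset.range M, a m * pwFun (P.c i) (m + 1) p := by
  unfold holeU
  rw [core_coe_sum, ContinuousMap.coe_sum, Finset.sum_apply]
  refine Finset.sum_congr rfl fun m _ => ?_
  rfl

theorem inf_mem (P : Par) : (∞ : OnePoint ℂ) ∈ P.D := by
  rintro ⟨z, -, h⟩
  exact OnePoint.coe_ne_infty z h

theorem hole_exp {x R : ℝ} (hx : 1 < x) (hR : 0 ≤ R) :
    Real.exp R ≤ x ^ ⌈R / Real.log x⌉₊ ∧ x ^ ⌈R / Real.log x⌉₊ ≤ x * Real.exp R := by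
  have hl : 0 < Real.log x := Real.log_pos hx
  have hx0 : 0 < x := by linarith
  have h1 : R / Real.log x ≤ ⌈R / Real.log x⌉₊ := Nat.le_ceil _
  have h2 : (⌈R / Real.log x⌉₊ : ℝ) < R / Real.log x + 1 := Nat.ceil_lt_add_one (by positivity)
  have h3 : x ^ ⌈R / Real.log x⌉₊ = Real.exp (Real.log x * ⌈R / Real.log x⌉₊) := by
    rw [mul_comm, Real.exp_nat_mul, Real.exp_log hx0]
  rw [h3]
  constructor
  · refine Real.exp_le_exp.2 ?_
    rw [div_le_iff₀ hl] at h1
    linarith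
  · have h4 : x * Real.exp R = Real.exp (Real.log x + R) := by
      rw [Real.exp_add, Real.exp_log hx0]
    rw [h4]
    refine Real.exp_le_exp.2 ?_
    have h5 : Real.log x * (⌈R / Real.log x⌉₊ : ℝ) ≤ Real.log x * (R / Real.log x + 1) :=
      mul_le_mul_of_nonneg_left h2.le hl.le
    have h6 : Real.log x * (R / Real.log x + 1) = R + Real.log x := by
      field_simp
    linarith

/-- The hole `i`. -/
theorem hole (P : Par) {i : ℕ} (hi : 1 ≤ i) {s D : ℝ} (h1 : P.r i < s) (h2 : s < D)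
    (h3 : s * s = P.r i * D) : ∃ C : ℝ, 0 ≤ C ∧ ∀ (F : ℂ → ℂ) (B R : ℝ),
      ContinuousOn F (Metric.sphere (P.c i) s) → 0 ≤ B → 0 ≤ R →
      (∀ ζ ∈ Metric.sphere (P.c i) s, ‖F ζ‖ ≤ B) → ∃ u : OO P.D,
        (u : C(P.D, ℂ)) ⟨∞, inf_mem P⟩ = 0 ∧
        (∀ (z : ℂ) (hz : (z : OnePoint ℂ) ∈ P.D), D ≤ ‖z - P.c i‖ →
          ‖-cau (P.c i) s F z - (u : C(P.D, ℂ)) ⟨z, hz⟩‖ ≤ C * Real.exp (-R) * B) ∧
        ∀ p : P.D, ‖(u : C(P.D, ℂ)) p‖ ≤ C * Real.exp R * B := by
  have hr := P.r0 i hi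
  have hs : 0 < s := hr.trans h1
  have hD : 0 < D := hs.trans h2
  set x : ℝ := s / P.r i with hx
  have hx1 : 1 < x := by
    rw [hx, lt_div_iff₀ hr]
    linarith
  have hx0 : 0 < x := by linarith
  have hsD : s / D = x⁻¹ := by
    rw [hx, inv_div, div_eq_div_iff hD.ne' hs.ne', h3]
  have hDs : 0 < D - s := by linarith
  refine ⟨s / (D - s) + x * x / (x - 1), by
    have : 0 < x - 1 := by linarith
    positivity, fun F B R hF hB0 hR hB => ?_⟩
  set M : ℕ := ⌈R / Real.log x⌉₊ with hM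
  obtain ⟨hM1, hM2⟩ := hole_exp hx1 hR
  refine ⟨holeU P hi (cof (P.c i) s F) M, ?_, ?_, ?_⟩
  · rw [holeU_apply]
    simp [core_pw_infty]
  · intro z hz hzD
    rw [holeU_apply]
    have e1 : -cau (P.c i) s F z - ∑ m ∈ Finset.range M,
        cof (P.c i) s F m * pwFun (P.c i) (m + 1) ((z : OnePoint ℂ)) =
        -(cau (P.c i) s F z + ∑ m ∈ Finset.range M, cof (P.c i) s F m *
          ((z - P.c i)⁻¹) ^ (m + 1)) := by
      simp only [core_pw_coe]
      ring
    rw [e1, norm_neg]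
    have hz1 : s < ‖z - P.c i‖ := h2.trans_le hzD
    refine (cau_tail hs hF hB M hz1).trans ?_
    have e2 : s / ‖z - P.c i‖ ≤ x⁻¹ := by
      rw [← hsD]
      exact div_le_div_of_nonneg_left hs.le hD hzD
    have e3 : (s / ‖z - P.c i‖) ^ M ≤ Real.exp (-R) := by
      calc (s / ‖z - P.c i‖) ^ M ≤ (x⁻¹) ^ M := pow_le_pow_left₀ (by positivity) e2 M
        _ = (x ^ M)⁻¹ := inv_pow _ _
        _ ≤ (Real.exp R)⁻¹ := inv_anti₀ (Real.exp_pos _) hM1
        _ = Real.exp (-R) := (Real.exp_neg R).symm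
    have e4 : s * B / (‖z - P.c i‖ - s) ≤ s / (D - s) * B := by
      rw [div_mul_eq_mul_div]
      exact div_le_div_of_nonneg_left (by positivity) hDs (by linarith)
    have hp : 0 ≤ s * B / (‖z - P.c i‖ - s) := by
      have : 0 < ‖z - P.c i‖ - s := by linarith
      positivity
    calc (s / ‖z - P.c i‖) ^ M * (s * B / (‖z - P.c i‖ - s))
        ≤ Real.exp (-R) * (s / (D - s) * B) := mul_le_mul e3 e4 hp (Real.exp_pos _).le
      _ = s / (D - s) * Real.exp (-R) * B := by ring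
      _ ≤ (s / (D - s) + x * x / (x - 1)) * Real.exp (-R) * B := by
        have : 0 < x - 1 := by linarith
        have : 0 ≤ x * x / (x - 1) := by positivity
        gcongr
        linarith
  · rintro ⟨p, hp⟩
    rw [holeU_apply]
    refine (norm_sum_le _ _).trans ?_
    have e1 : ∀ m ∈ Finset.range M, ‖cof (P.c i) s F m * pwFun (P.c i) (m + 1) p‖ ≤
        x ^ (m + 1) * B := by
      intro m _
      rw [norm_mul]
      have e2 : ‖pwFun (P.c i) (m + 1) p‖ ≤ ((P.r i)⁻¹) ^ (m + 1) := by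
        induction p using OnePoint.rec with
        | infty =>
          rw [core_pw_infty, norm_zero]
          positivity
        | coe z =>
          rw [core_pw_coe, norm_pow, norm_inv]
          exact pow_le_pow_left₀ (by positivity) (inv_anti₀ hr (core_away_c P hi hp)) _
      calc ‖cof (P.c i) s F m‖ * ‖pwFun (P.c i) (m + 1) p‖
          ≤ (s ^ (m + 1) * B) * ((P.r i)⁻¹) ^ (m + 1) :=
            mul_le_mul (cof_le hs hB m) e2 (norm_nonneg _) (by positivity)
        _ = x ^ (m + 1) * B := by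
            rw [hx, div_eq_mul_inv, mul_pow]
            ring
    refine (Finset.sum_le_sum e1).trans ?_
    rw [← Finset.sum_mul]
    refine mul_le_mul_of_nonneg_right ?_ hB0
    refine (hole_geom2 hx1 M).trans ?_
    have hx2 : 0 < x - 1 := by linarith
    have e3 : x ^ (M + 1) ≤ x * (x * Real.exp R) := by
      rw [pow_succ']
      exact mul_le_mul_of_nonneg_left hM2 hx0.le
    calc x ^ (M + 1) / (x - 1) ≤ x * (x * Real.exp R) / (x - 1) := by gcongr
      _ = x * x / (x - 1) * Real.exp R := by ring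
      _ ≤ (s / (D - s) + x * x / (x - 1)) * Real.exp R := by
        have : 0 ≤ s / (D - s) := by positivity
        gcongr
        linarith

/-- the centre: the sum of the first `M` terms, with the powers `z^(-n)` replaced by rational
functions with a pole in the disc `k0` -/
noncomputable def holeV (P : Par) {k : ℕ} (hk : 1 ≤ k) (a : ℕ → ℂ) (M N : ℕ) : OO P.D :=
  ∑ m ∈ Finset.range M, a m • coreG P hk (n := m + 1) (by omega) N

theorem holeV_apply (P : Par) {k : ℕ} (hk : 1 ≤ k) (a : ℕ → ℂ) (M N : ℕ) (p : P.D) :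
    (holeV P hk a M N : C(P.D, ℂ)) p = ∑ m ∈ Finset.range M,
      a m * (coreG P hk (n := m + 1) (by omega) N : C(P.D, ℂ)) p := by
  unfold holeV
  rw [core_coe_sum, ContinuousMap.coe_sum, Finset.sum_apply]
  refine Finset.sum_congr rfl fun m _ => ?_
  rfl

theorem hole_23 {R : ℝ} (hR : 0 ≤ R) : (2 / 3 : ℝ) ^ ⌈3 * R⌉₊ ≤ Real.exp (-R) := by
  have h1 : Real.log (2 / 3) ≤ -(1 / 3) := by
    have := Real.log_le_sub_one_of_pos (show (0 : ℝ) < 2 / 3 by norm_num)
    linarith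
  have h2 : (2 / 3 : ℝ) ^ ⌈3 * R⌉₊ = Real.exp (Real.log (2 / 3) * ⌈3 * R⌉₊) := by
    rw [mul_comm (Real.log (2 / 3)), Real.exp_nat_mul, Real.exp_log (by norm_num)]
  rw [h2]
  refine Real.exp_le_exp.2 ?_
  have h3 : 3 * R ≤ ⌈3 * R⌉₊ := Nat.le_ceil _
  have h4 : (0 : ℝ) ≤ ⌈3 * R⌉₊ := Nat.cast_nonneg _
  nlinarith

/-- The centre. -/
theorem holeC (P : Par) {k : ℕ} (hk : 1 ≤ k) {ρ : ℝ} (hρ : 0 < ρ) (h4 : 4 * ρ ≤ P.r k) :
    ∃ C : ℝ, 0 ≤ C ∧ ∀ (F : ℂ → ℂ) (B R : ℝ),
      ContinuousOn F (Metric.sphere 0 ρ) → 0 ≤ B → 0 ≤ R →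
      (∀ ζ ∈ Metric.sphere (0 : ℂ) ρ, ‖F ζ‖ ≤ B) → ∃ u : OO P.D,
        (u : C(P.D, ℂ)) ⟨∞, inf_mem P⟩ = 0 ∧
        (∀ (z : ℂ) (hz : (z : OnePoint ℂ) ∈ P.D), 4 * P.q ^ k ≤ ‖z‖ →
          ‖-cau 0 ρ F z - (u : C(P.D, ℂ)) ⟨z, hz⟩‖ ≤ C * Real.exp (-R) * B) ∧
        ∀ p : P.D, ‖(u : C(P.D, ℂ)) p‖ ≤ C * Real.exp (3 * (P.L k + 1) * R) * B := by
  have hr := P.r0 k hk
  have hrq := P.r1 k hk
  have hq0 := P.q0
  have hqk : P.q ^ k ≤ 1 := pow_le_one₀ hq0.le P.q1.le
  have hqk0 : 0 < P.q ^ k := by positivity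
  have hr1 : P.r k ≤ 1 := hrq.le.trans hqk
  refine ⟨4 + 2 / P.r k, by positivity, fun F B R hF hB0 hR hB => ?_⟩
  set N : ℕ := ⌈3 * R⌉₊ with hN
  set M : ℕ := ⌈R⌉₊ with hM
  set d : ℝ := 4 * P.q ^ k with hd
  have hd0 : 0 < d := by positivity
  have hρd : 16 * ρ ≤ d := by
    rw [hd]
    linarith
  refine ⟨holeV P hk (cof 0 ρ F) M N, ?_, ?_, ?_⟩
  · rw [holeV_apply]
    refine Finset.sum_eq_zero fun m _ => ?_
    rw [coreG_apply]
    simp [core_pw_infty]
  · intro z hz hzd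
    have hzρ : ρ < ‖z - 0‖ := by
      rw [sub_zero]
      linarith
    have hz0 : 0 < ‖z‖ := by linarith
    rw [holeV_apply]
    have e1 : -cau 0 ρ F z - ∑ m ∈ Finset.range M,
        cof 0 ρ F m * (coreG P hk (n := m + 1) (by omega) N : C(P.D, ℂ)) ⟨z, hz⟩ =
        -(cau 0 ρ F z + ∑ m ∈ Finset.range M, cof 0 ρ F m * ((z - 0)⁻¹) ^ (m + 1)) +
        ∑ m ∈ Finset.range M, cof 0 ρ F m * ((z⁻¹) ^ (m + 1) -
          (coreG P hk (n := m + 1) (by omega) N : C(P.D, ℂ)) ⟨z, hz⟩) := by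
      simp only [mul_sub, Finset.sum_sub_distrib, sub_zero]
      ring
    rw [e1]
    refine (norm_add_le _ _).trans ?_
    rw [norm_neg]
    have e2 : ‖cau 0 ρ F z + ∑ m ∈ Finset.range M, cof 0 ρ F m * ((z - 0)⁻¹) ^ (m + 1)‖ ≤
        Real.exp (-R) * B := by
      refine (cau_tail hρ hF hB M hzρ).trans ?_
      rw [sub_zero]
      have a1 : ρ / ‖z‖ ≤ 1 / 16 := by
        rw [div_le_div_iff₀ hz0 (by norm_num)]
        linarith
      have a2 : (ρ / ‖z‖) ^ M ≤ Real.exp (-R) := by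
        have b1 : (ρ / ‖z‖) ≤ Real.exp (-1) := by
          refine a1.trans ?_
          rw [Real.exp_neg, one_div]
          refine inv_anti₀ (Real.exp_pos _) ?_
          linarith [Real.exp_one_lt_d9]
        calc (ρ / ‖z‖) ^ M ≤ (Real.exp (-1)) ^ M := pow_le_pow_left₀ (by positivity) b1 M
          _ = Real.exp (M * -1) := (Real.exp_nat_mul _ _).symm
          _ ≤ Real.exp (-R) := by
            refine Real.exp_le_exp.2 ?_
            have : R ≤ M := Nat.le_ceil _
            linarith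
      have a3 : ρ * B / (‖z‖ - ρ) ≤ B := by
        rw [div_le_iff₀ (by linarith)]
        nlinarith
      exact mul_le_mul a2 a3 (by
        have : 0 < ‖z‖ - ρ := by linarith
        positivity) (Real.exp_pos _).le
    have e3 : ‖∑ m ∈ Finset.range M, cof 0 ρ F m * ((z⁻¹) ^ (m + 1) -
        (coreG P hk (n := m + 1) (by omega) N : C(P.D, ℂ)) ⟨z, hz⟩)‖ ≤
        3 * Real.exp (-R) * B := by
      refine (norm_sum_le _ _).trans ?_
      have a1 : ∀ m ∈ Finset.range M, ‖cof 0 ρ F m * ((z⁻¹) ^ (m + 1) -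
          (coreG P hk (n := m + 1) (by omega) N : C(P.D, ℂ)) ⟨z, hz⟩)‖ ≤
          3 * Real.exp (-R) * B * (4 * ρ / d) ^ (m + 1) := by
        intro m _
        rw [norm_mul, coreG_apply]
        simp only [core_pw_coe]
        have b1 := bin (m + 1) N d z (P.c k) (by omega) hd0 hzd (by
          rw [core_normc, hd]
          linarith)
        calc _ ≤ (ρ ^ (m + 1) * B) * (3 * (2 / 3) ^ N * (4 / d) ^ (m + 1)) :=
              mul_le_mul (cof_le hρ hB m) b1 (norm_nonneg _) (by positivity)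
          _ ≤ (ρ ^ (m + 1) * B) * (3 * Real.exp (-R) * (4 / d) ^ (m + 1)) := by
              have := hole_23 hR
              gcongr
          _ = _ := by
              rw [show 4 * ρ / d = ρ * (4 / d) by ring, mul_pow]
              ring
      refine (Finset.sum_le_sum a1).trans ?_
      rw [← Finset.mul_sum]
      have a2 : 4 * ρ / d ≤ 1 / 2 := by
        rw [div_le_div_iff₀ hd0 (by norm_num)]
        linarith
      have a3 := hole_geom (x := 4 * ρ / d) (by positivity) a2 M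
      calc 3 * Real.exp (-R) * B * ∑ m ∈ Finset.range M, (4 * ρ / d) ^ (m + 1)
          ≤ 3 * Real.exp (-R) * B * 1 := mul_le_mul_of_nonneg_left a3 (by positivity)
        _ = _ := mul_one _
    calc _ ≤ Real.exp (-R) * B + 3 * Real.exp (-R) * B := add_le_add e2 e3
      _ = 4 * Real.exp (-R) * B := by ring
      _ ≤ (4 + 2 / P.r k) * Real.exp (-R) * B := by
        have : 0 ≤ 2 / P.r k := by positivity
        gcongr
        linarith
  · intro p
    rw [holeV_apply]
    refine (norm_sum_le _ _).trans ?_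
    have h2r : 1 ≤ 2 / P.r k := by
      rw [le_div_iff₀ hr]
      linarith
    have a1 : ∀ m ∈ Finset.range M, ‖cof 0 ρ F m *
        (coreG P hk (n := m + 1) (by omega) N : C(P.D, ℂ)) p‖ ≤
        (2 / P.r k) ^ N * B * (2 * ρ / P.r k) ^ (m + 1) := by
      intro m _
      rw [norm_mul]
      have b1 : ‖(coreG P hk (n := m + 1) (by omega) N : C(P.D, ℂ)) p‖ ≤
          (2 / P.r k) ^ (m + 1 + N) := by
        refine (le_nrm ⟨{p}, isCompact_singleton⟩ _ (mem_singleton p)).trans ?_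
        exact core_g_le binB P (by omega) N hk _
      calc _ ≤ (ρ ^ (m + 1) * B) * (2 / P.r k) ^ (m + 1 + N) :=
            mul_le_mul (cof_le hρ hB m) b1 (norm_nonneg _) (by positivity)
        _ = _ := by
            rw [pow_add, show 2 * ρ / P.r k = ρ * (2 / P.r k) by ring, mul_pow]
            ring
    refine (Finset.sum_le_sum a1).trans ?_
    rw [← Finset.mul_sum]
    have a2 : 2 * ρ / P.r k ≤ 1 / 2 := by
      rw [div_le_div_iff₀ hr (by norm_num)]
      linarith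
    have a3 := hole_geom (x := 2 * ρ / P.r k) (by positivity) a2 M
    have a4 : (2 / P.r k) ^ N ≤ 2 / P.r k * Real.exp (3 * (P.L k + 1) * R) := by
      have hx0 : 0 < 2 / P.r k := by positivity
      have b1 : (2 / P.r k) ^ N = Real.exp (Real.log (2 / P.r k) * N) := by
        rw [mul_comm, Real.exp_nat_mul, Real.exp_log hx0]
      have b2 : (N : ℝ) < 3 * R + 1 := Nat.ceil_lt_add_one (by positivity)
      have b3 : 0 ≤ Real.log (2 / P.r k) := Real.log_nonneg h2r
      have b4 : Real.log (2 / P.r k) ≤ P.L k + 1 := by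
        unfold Par.L
        rw [Real.log_div (by norm_num) hr.ne', Real.log_div (by norm_num) hr.ne', Real.log_one]
        have := Real.log_two_lt_d9
        linarith
      rw [b1]
      have b5 : 2 / P.r k * Real.exp (3 * (P.L k + 1) * R) =
          Real.exp (Real.log (2 / P.r k) + 3 * (P.L k + 1) * R) := by
        rw [Real.exp_add, Real.exp_log hx0]
      rw [b5]
      refine Real.exp_le_exp.2 ?_
      have b6 : Real.log (2 / P.r k) * N ≤ Real.log (2 / P.r k) * (3 * R + 1) :=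
        mul_le_mul_of_nonneg_left b2.le b3
      have b7 : Real.log (2 / P.r k) * (3 * R) ≤ (P.L k + 1) * (3 * R) :=
        mul_le_mul_of_nonneg_right b4 (by positivity)
      linarith
    calc (2 / P.r k) ^ N * B * ∑ m ∈ Finset.range M, (2 * ρ / P.r k) ^ (m + 1)
        ≤ (2 / P.r k) ^ N * B * 1 := mul_le_mul_of_nonneg_left a3 (by positivity)
      _ = (2 / P.r k) ^ N * B := mul_one _
      _ ≤ 2 / P.r k * Real.exp (3 * (P.L k + 1) * R) * B :=
        mul_le_mul_of_nonneg_right a4 hB0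
      _ ≤ _ := by
        gcongr
        linarith

end Pool.Agent.Lib.MP_413903_an
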