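import Pool.Agent.Lib.MP_413903_an.T.Obs
import Pool.Agent.Lib.MP_413903_an.Space

/-!
# MP_413903_an, tame isomorphisms: transport of the approximation property; the exhaustion
-/

set_option autoImplicit false

namespace Pool.Agent.Lib.MP_413903_an

open Complex Set Filter Topology OnePoint NNReal TopologicalSpace

theorem cont_nrm {D D' : Set (OnePoint ℂ)} (T : OO D →L[ℂ] OO D') (K' : Compacts D') :
    ∃ (K : Compacts D) (C : ℝ), 0 ≤ C ∧ ∀ f : OO D,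
      nrm K' (T f : C(D', ℂ)) ≤ C * nrm K (f : C(D, ℂ)) := by
  have h1 : {g : OO D' | nrm K' (g : C(D', ℂ)) < 1} ∈ 𝓝 (0 : OO D') := (nh D').2.1 K' 1 one_pos
  have h2 : T ⁻¹' {g : OO D' | nrm K' (g : C(D', ℂ)) < 1} ∈ 𝓝 (0 : OO D) := by
    have h3 : Tendsto T (𝓝 0) (𝓝 (T 0)) := T.continuous.tendsto 0
    rw [map_zero] at h3
    exact h3 h1
  obtain ⟨K, ε, hε, h⟩ := (nh D).1 _ h2
  refine ⟨K, 2 / ε, by positivity, fun f => ?_⟩
  exact KDec_scale (E := OO D) (KDec_sn K) ((KDec_sn K').comp T.toLinearMap) ε hε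
    (fun x hx => h x hx) f

theorem open_nrm {D D' : Set (OnePoint ℂ)} (T : OO D →L[ℂ] OO D') (hT : IsOpenMap T)
    (K : Compacts D) : ∃ (K' : Compacts D') (C : ℝ), 0 < C ∧ ∀ (g : OO D') (a : ℝ), 0 < a →
      nrm K' (g : C(D', ℂ)) ≤ a → ∃ f : OO D, T f = g ∧ nrm K (f : C(D, ℂ)) ≤ C * a := by
  have h1 : {f : OO D | nrm K (f : C(D, ℂ)) < 1} ∈ 𝓝 (0 : OO D) := (nh D).2.1 K 1 one_pos
  have h2 : T '' {f : OO D | nrm K (f : C(D, ℂ)) < 1} ∈ 𝓝 (0 : OO D') := by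
    have h3 := hT.image_mem_nhds h1
    rwa [map_zero] at h3
  obtain ⟨K', ε, hε, h⟩ := (nh D').1 _ h2
  refine ⟨K', 2 / ε, by positivity, fun g a ha hg => ?_⟩
  set x : ℝ := ε / (2 * a) with hx
  have hx0 : 0 < x := by positivity
  have hnx : ‖(x : ℂ)‖ = x := by rw [Complex.norm_real, Real.norm_of_nonneg hx0.le]
  have h4 : nrm K' (((x : ℂ) • g : OO D') : C(D', ℂ)) < ε := by
    have h5 : nrm K' (((x : ℂ) • g : OO D') : C(D', ℂ)) = x * nrm K' (g : C(D', ℂ)) := by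
      have := nrm_smul K' (x : ℂ) (g : C(D', ℂ))
      rw [hnx] at this
      exact this
    rw [h5]
    have h6 : x * nrm K' (g : C(D', ℂ)) ≤ x * a := mul_le_mul_of_nonneg_left hg hx0.le
    have h7 : x * a = ε / 2 := by
      rw [hx]
      field_simp
    linarith
  obtain ⟨f, hf1, hf2⟩ := h _ h4
  have hf1' : nrm K (f : C(D, ℂ)) < 1 := hf1
  refine ⟨((x⁻¹ : ℝ) : ℂ) • f, ?_, ?_⟩
  · have h8 : T (((x⁻¹ : ℝ) : ℂ) • f) = ((x⁻¹ : ℝ) : ℂ) • T f :=
      map_smul (T : OO D →ₗ[ℂ] OO D') _ _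
    rw [h8, hf2, smul_smul]
    have h9 : ((x⁻¹ : ℝ) : ℂ) * (x : ℂ) = 1 := by
      push_cast
      have : (x : ℂ) ≠ 0 := by exact_mod_cast hx0.ne'
      field_simp
    rw [h9, one_smul]
  · have h10 : nrm K ((((x⁻¹ : ℝ) : ℂ) • f : OO D) : C(D, ℂ)) = x⁻¹ * nrm K (f : C(D, ℂ)) := by
      have := nrm_smul K ((x⁻¹ : ℝ) : ℂ) (f : C(D, ℂ))
      rw [Complex.norm_real, Real.norm_of_nonneg (inv_pos.2 hx0).le] at this
      exact this
    rw [h10]
    have h11 : x⁻¹ = 2 / ε * a := by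
      rw [hx, inv_div]
      ring
    rw [← h11]
    have := inv_pos.2 hx0
    nlinarith

/-- Transport of `AppProp` by an open continuous linear map. -/
theorem inv {D D' : Set (OnePoint ℂ)} (T : OO D →L[ℂ] OO D') (hTo : IsOpenMap T)
    (N : Compacts D) (N' : Compacts D')
    {ν : ℝ} (hT : ∃ C : ℝ, 0 ≤ C ∧ ∀ f : OO D, nrm N' (T f : C(D', ℂ)) ≤ C * nrm N (f : C(D, ℂ)))
    (h : AppProp D N ν) : AppProp D' N' ν := by
  obtain ⟨C0, hC0, hT⟩ := hT
  obtain ⟨K', hK'⟩ := h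
  obtain ⟨K'', C1, hC1, h1⟩ := open_nrm T hTo K'
  refine ⟨K'', fun K => ?_⟩
  obtain ⟨K2, C2, hC2, h2⟩ := cont_nrm T K
  obtain ⟨C, hC, h3⟩ := hK' K2
  refine ⟨C0 * C * C1 + C2 * C * C1, by positivity, fun g a R ha hg hR => ?_⟩
  obtain ⟨f, hf1, hf2⟩ := h1 g a ha hg
  obtain ⟨u, hu1, hu2⟩ := h3 f (C1 * a) R (by positivity) hf2 hR
  refine ⟨T u, ?_, ?_⟩
  · have e1 : (g : C(D', ℂ)) - ((T u : OO D') : C(D', ℂ)) =
        ((T (f - u) : OO D') : C(D', ℂ)) := by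
      have e2 : T (f - u) = T f - T u := map_sub (T : OO D →ₗ[ℂ] OO D') f u
      rw [e2, hf1]
      rfl
    rw [e1]
    calc nrm N' ((T (f - u) : OO D') : C(D', ℂ))
        ≤ C0 * nrm N ((f - u : OO D) : C(D, ℂ)) := hT _
      _ ≤ C0 * (C * Real.exp (-R) * (C1 * a)) := mul_le_mul_of_nonneg_left hu1 hC0
      _ = C0 * C * C1 * Real.exp (-R) * a := by ring
      _ ≤ _ := by
        gcongr
        have : 0 ≤ C2 * C * C1 := by positivity
        linarith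
  · calc nrm K ((T u : OO D') : C(D', ℂ)) ≤ C2 * nrm K2 (u : C(D, ℂ)) := h2 u
      _ ≤ C2 * (C * Real.exp (ν * R) * (C1 * a)) := mul_le_mul_of_nonneg_left hu2 hC2
      _ = C2 * C * C1 * Real.exp (ν * R) * a := by ring
      _ ≤ _ := by
        gcongr
        have : 0 ≤ C0 * C * C1 := by positivity
        linarith

/-- the points of `D` at distance at least `δ` from the removed set, and `∞` -/
def awayK (P : Par) (δ : ℝ) (hδ : 0 < δ) : Compacts P.D where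
  carrier := {p | (p : OnePoint ℂ) ∉ (fun z : ℂ => (z : OnePoint ℂ)) ''
    {z | Metric.infDist z (Removed P.q P.r) < δ}}
  isCompact' := by
    rw [Topology.IsEmbedding.subtypeVal.isCompact_iff]
    have h1 : (Subtype.val '' {p : P.D | (p : OnePoint ℂ) ∉ (fun z : ℂ => (z : OnePoint ℂ)) ''
        {z | Metric.infDist z (Removed P.q P.r) < δ}}) =
        ((fun z : ℂ => (z : OnePoint ℂ)) ''
          {z | Metric.infDist z (Removed P.q P.r) < δ})ᶜ := by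
      ext p
      constructor
      · rintro ⟨p, hp, rfl⟩
        exact hp
      · intro hp
        have hpD : p ∈ P.D := by
          rintro ⟨z, hz, h⟩
          refine hp ⟨z, ?_, h⟩
          show Metric.infDist z _ < δ
          rw [Metric.infDist_zero_of_mem hz]
          exact hδ
        exact ⟨⟨p, hpD⟩, hp, rfl⟩
    rw [h1]
    have h2 : IsOpen {z : ℂ | Metric.infDist z (Removed P.q P.r) < δ} :=
      isOpen_lt (Metric.continuous_infDist_pt _) continuous_const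
    exact ((OnePoint.isOpen_image_coe.2 h2).isClosed_compl).isCompact

theorem mem_awayK (P : Par) {δ : ℝ} (hδ : 0 < δ) {z : ℂ} (hz : (z : OnePoint ℂ) ∈ P.D) :
    (⟨z, hz⟩ : P.D) ∈ awayK P δ hδ ↔ δ ≤ Metric.infDist z (Removed P.q P.r) := by
  have h1 : (⟨z, hz⟩ : P.D) ∈ awayK P δ hδ ↔ (z : OnePoint ℂ) ∉ (fun z : ℂ => (z : OnePoint ℂ)) ''
      {z | Metric.infDist z (Removed P.q P.r) < δ} := Iff.rfl
  rw [h1, OnePoint.coe_injective.mem_set_image, mem_ofPred_eq, not_lt]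

theorem awayK_far (P : Par) {δ : ℝ} (hδ : 0 < δ) : ∀ p ∈ awayK P δ hδ, ∀ z : ℂ,
    (p : OnePoint ℂ) = z → δ ≤ ‖z‖ := by
  rintro ⟨p, hp⟩ hpK z hz
  subst hz
  have h1 := (mem_awayK P hδ hp).1 hpK
  have h2 : Metric.infDist z (Removed P.q P.r) ≤ dist z 0 :=
    Metric.infDist_le_dist_of_mem (Or.inl rfl)
  rw [dist_zero_right] at h2
  linarith

end Pool.Agent.Lib.MP_413903_an
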