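import Pool.Agent.Lib.MP_413903_an.T.Approx
import Pool.Agent.Lib.MP_413903_an.Main

/-!
# MP_413903_an, tame isomorphisms: the obstruction to approximation with rate
-/

set_option autoImplicit false

namespace Pool.Agent.Lib.MP_413903_an

open Complex Set Filter Topology OnePoint NNReal TopologicalSpace

/-- the inequality for one `n` -/
theorem obs_ineq (P : Par) {k1 l M : ℕ} (hG : P.Good k1) (hkl : k1 ≤ l)
    (hM : 1 ≤ M) {ν ρ'' : ℝ} (hν : 0 ≤ ν)
    (hw2 : (2 * ν + 4) * ∑ k ∈ Finset.Ioc k1 l, P.w k ≤ 1 / 100)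
    (hρ'' : 0 < ρ'') (hM2 : Real.log (1 / ρ'') ≤ (M : ℝ) / 8)
    (hl : (2 * ν + 4) * M ≤ Real.log (1 / P.ρ l))
    (N K' K3 : Compacts P.D)
    (hN : ∀ (z : ℂ) (hz : (z : OnePoint ℂ) ∈ P.D), ‖z‖ = P.ρ k1 → (⟨z, hz⟩ : P.D) ∈ N)
    (hK3 : K3 = mkK (coreS P k1 l (P.ρ l)) (coreS_compact _ _ _ _)
      (coreS_sub regSub circ annSub P hG hkl (Or.inr rfl)))
    (haw1 : ∀ p ∈ K', ∀ z : ℂ, (p : OnePoint ℂ) = z → ρ'' ≤ ‖z‖)
    {CS : ℝ} (hCS : 0 ≤ CS)
    (hSt : ∀ (F : ℂ → ℂ) (B : ℝ), 0 ≤ B →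
      (∀ z : ℂ, P.ρ l ≤ ‖z‖ → ‖z‖ ≤ P.ρ k1 →
        (∀ k ∈ Finset.Ioc k1 l, 2 * P.r k ^ 2 ≤ ‖z - P.c k‖ ^ 2) → DifferentiableAt ℂ F z) →
      (∀ z : ℂ, P.ρ l ≤ ‖z‖ → ‖z‖ ≤ P.ρ k1 →
        (∀ k ∈ Finset.Ioc k1 l, 2 * P.r k ^ 2 ≤ ‖z - P.c k‖ ^ 2) →
        (∃ k ∈ Finset.Ioc k1 l, ‖z - P.c k‖ ^ 2 ≤ 3 * P.r k ^ 2) → ‖F z‖ ≤ B) →
      ‖(∮ z in C(0, P.ρ k1), F z) - ∮ z in C(0, P.ρ l), F z‖ ≤ CS * B)
    {C : ℝ} (hC : 0 ≤ C) {n : ℕ} (hn : 1 ≤ n)
    (hT : ∀ (f : OO P.D) (a R : ℝ), 0 < a → nrm K' (f : C(P.D, ℂ)) ≤ a → 0 ≤ R → ∃ h : OO P.D,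
      nrm N (f - h : C(P.D, ℂ)) ≤ C * Real.exp (-R) * a ∧
      nrm K3 (h : C(P.D, ℂ)) ≤ C * Real.exp (ν * R) * a) :
    2 * Real.pi ≤ (Real.exp (∑ k ∈ Finset.Ioc k1 l, P.h k) * (2 * Real.pi * C +
      (2 * Real.pi * C + CS * C))) * Real.exp (-((M : ℝ) * n / 2)) := by
  have hk1 : 1 ≤ k1 := hG.1
  set t : ℝ := (M : ℝ) * n with ht
  have hMr : (1 : ℝ) ≤ M := by exact_mod_cast hM
  have hnr : (1 : ℝ) ≤ n := by exact_mod_cast hn
  have ht1 : 1 ≤ t := by
    rw [ht]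
    nlinarith
  have ht0 : 0 ≤ t := by linarith
  set H : ℝ := ∑ k ∈ Finset.Ioc k1 l, P.h k with hH
  set f : OO P.D := coreF P hn with hf
  set m : ℕ → ℕ := P.mexp k1 ν t with hm
  -- `Q`
  obtain ⟨hQ1, hQ2⟩ := qA lpos P k1 k1 l ν t hk1 le_rfl hkl hν ht0
  have hexp : 4 * t * ∑ k ∈ Finset.Ioc k1 k1, P.w k +
      (2 * ν + 4) * t * ∑ k ∈ Finset.Ioc k1 l, P.w k + H ≤ t / 20 + H := by
    have e1 : ∑ k ∈ Finset.Ioc k1 k1, P.w k = 0 := by simp
    have e2 : (2 * ν + 4) * t * ∑ k ∈ Finset.Ioc k1 l, P.w k ≤ t * (1 / 100) := by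
      have := mul_le_mul_of_nonneg_left hw2 ht0
      calc _ = t * ((2 * ν + 4) * ∑ k ∈ Finset.Ioc k1 l, P.w k) := by ring
        _ ≤ _ := this
    rw [e1, mul_zero, zero_add]
    linarith
  have hQb : ∀ z : ℂ, ‖z‖ ≤ 1 → ‖P.Q k1 l m z‖ ≤ Real.exp (t / 20 + H) := fun z hz =>
    (hQ1 z hz).trans (Real.exp_le_exp.2 hexp)
  have hQA : ∀ z : ℂ, ‖z‖ ≤ 1 → ∀ k ∈ Finset.Ioc k1 l, z ∈ P.Ann k → ‖P.Q k1 l m z‖ ≤
      Real.exp (t / 20 + H - (2 * ν + 4) * t) := by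
    intro z hz k hk hzk
    have h1 := hQ2 z hz k hk hzk
    rw [if_neg (not_le.2 (Finset.mem_Ioc.1 hk).1)] at h1
    exact h1.trans (Real.exp_le_exp.2 (by linarith))
  -- numbers
  have n3 : (1 / ρ'') ^ n ≤ Real.exp (t / 8) := by
    have := core_pow_exp (x := 1 / ρ'') (by positivity) hM2 n
    refine this.trans (le_of_eq ?_)
    congr 1
    rw [ht]
    ring
  have n6 : P.ρ l ^ n ≤ Real.exp (-((2 * ν + 4) * t)) := by
    have h1 : Real.log (P.ρ l) ≤ -((2 * ν + 4) * M) := by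
      rw [one_div, Real.log_inv] at hl
      linarith
    have := core_pow_exp (core_rho_pos P l) h1 n
    refine this.trans (le_of_eq ?_)
    congr 1
    rw [ht]
    ring
  -- norms
  have hf1 : nrm K' (f : C(P.D, ℂ)) ≤ Real.exp (t / 8) :=
    (core_f_le P hn K' hρ'' haw1).trans n3
  obtain ⟨g, hg4, hg3⟩ := hT f (Real.exp (t / 8)) t (Real.exp_pos _) hf1 ht0
  -- the integrals
  set W : ℂ → ℂ := fun z => z ^ (n - 1) * P.Q k1 l m z with hW
  have hdiff : ∀ (u : OO P.D) (z : ℂ), (z : OnePoint ℂ) ∈ P.D →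
      DifferentiableAt ℂ (fun z : ℂ => ext (u : C(P.D, ℂ)) z * W z) z :=
    fun u z hz => diff P u k1 l m n z hz
  have hρk := core_rho_pos P k1
  have hρl := core_rho_pos P l
  have hcirc1 : ∀ z : ℂ, z ∈ Metric.sphere (0 : ℂ) (P.ρ k1) → (z : OnePoint ℂ) ∈ P.D :=
    fun z hz => core_circ1 regSub circ P hG le_rfl (Or.inl (mem_sphere_zero_iff_norm.1 hz))
  have hint : ∀ u : OO P.D, CircleIntegrable (fun z : ℂ => ext (u : C(P.D, ℂ)) z * W z) 0
      (P.ρ k1) := by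
    intro u
    refine ContinuousOn.circleIntegrable hρk.le fun z hz => ?_
    exact (hdiff u z (hcirc1 z hz)).continuousAt.continuousWithinAt
  have hW1 : ∀ z : ℂ, ‖z‖ ≤ 1 → ‖W z‖ ≤ Real.exp (t / 20 + H) := by
    intro z hz
    simp only [hW]
    rw [norm_mul, norm_pow]
    have h1 : ‖z‖ ^ (n - 1) ≤ 1 := pow_le_one₀ (norm_nonneg _) hz
    calc ‖z‖ ^ (n - 1) * ‖P.Q k1 l m z‖ ≤ 1 * Real.exp (t / 20 + H) :=
          mul_le_mul h1 (hQb z hz) (norm_nonneg _) zero_le_one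
      _ = _ := one_mul _
  -- circle bound
  have hcb : ‖∮ z in C(0, P.ρ k1), ext ((f - g : OO P.D) : C(P.D, ℂ)) z * W z‖ ≤
        2 * Real.pi * (C * Real.exp (-t) * Real.exp (t / 8) * Real.exp (t / 20 + H)) := by
    have h1 : ∀ z ∈ Metric.sphere (0 : ℂ) (P.ρ k1),
        ‖ext ((f - g : OO P.D) : C(P.D, ℂ)) z * W z‖ ≤
        C * Real.exp (-t) * Real.exp (t / 8) * Real.exp (t / 20 + H) := by
      intro z hz
      rw [norm_mul]
      have hz1 : ‖z‖ ≤ 1 := by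
        rw [mem_sphere_zero_iff_norm.1 hz]
        exact core_rho_le P k1
      refine mul_le_mul ?_ (hW1 z hz1) (norm_nonneg _) (by positivity)
      refine le_trans ?_ hg4
      rw [ext_of_mem _ (hcirc1 z hz)]
      exact le_nrm N _ (hN z (hcirc1 z hz) (mem_sphere_zero_iff_norm.1 hz))
    refine (circleIntegral.norm_integral_le_of_norm_le_const hρk.le h1).trans ?_
    have h2 := core_rho_le P k1
    have hpi := Real.pi_pos
    calc 2 * Real.pi * P.ρ k1 * (C * Real.exp (-t) * Real.exp (t / 8) * Real.exp (t / 20 + H))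
        ≤ 2 * Real.pi * 1 *
          (C * Real.exp (-t) * Real.exp (t / 8) * Real.exp (t / 20 + H)) := by gcongr
      _ = _ := by ring
  -- decomposition
  have hmain : (2 * Real.pi * Complex.I : ℂ) =
      (∮ z in C(0, P.ρ k1), ext ((f - g : OO P.D) : C(P.D, ℂ)) z * W z) +
      (∮ z in C(0, P.ρ k1), ext ((g : OO P.D) : C(P.D, ℂ)) z * W z) := by
    rw [← circleIntegral.integral_add (hint _) (hint _),
      ← res P k1 l m n (P.ρ k1) hn hρk]
    refine circleIntegral.integral_congr hρk.le fun z hz => ?_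
    have hzD := hcirc1 z hz
    have e1 : ext (f : C(P.D, ℂ)) z = (z⁻¹) ^ n := by
      rw [hf]
      unfold coreF
      rw [pw_apply _ _ _ _ _ hzD, sub_zero]
    have e2 : ext (f : C(P.D, ℂ)) z = ext ((f - g : OO P.D) : C(P.D, ℂ)) z +
        ext ((g : OO P.D) : C(P.D, ℂ)) z := by
      rw [← ext_add]
      congr 1
      have e3 : f = (f - g) + g := by abel
      have e4 := congrArg (fun u : OO P.D => (u : C(P.D, ℂ))) e3
      exact e4
    simp only [hW]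
    rw [← e1, e2]
    ring
  have hn0 : ‖(2 * Real.pi * Complex.I : ℂ)‖ = 2 * Real.pi := by
    rw [norm_mul, norm_mul, Complex.norm_I, Complex.norm_real, Real.norm_of_nonneg Real.pi_pos.le]
    simp
  -- the second integral
  set B : ℝ := C * Real.exp (ν * t) * Real.exp (t / 8) *
    Real.exp (t / 20 + H - (2 * ν + 4) * t) with hB
  have hB0 : 0 ≤ B := by positivity
  have hS3 := hSt (fun z => ext ((g : OO P.D) : C(P.D, ℂ)) z * W z) B hB0
    (fun z h1 h2 h3 => hdiff _ z (regSub P k1 l hG hkl z ⟨h1, h2, h3⟩))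
    (by
      intro z h1 h2 h3 ⟨k, hk, h4⟩
      have hzA : z ∈ P.Ann k := ⟨h3 k hk, h4⟩
      have hz1 : ‖z‖ ≤ 1 := h2.trans (core_rho_le P k1)
      have hWz : ‖W z‖ ≤ Real.exp (t / 20 + H - (2 * ν + 4) * t) := by
        simp only [hW]
        rw [norm_mul, norm_pow]
        have h5 : ‖z‖ ^ (n - 1) ≤ 1 := pow_le_one₀ (norm_nonneg _) hz1
        calc ‖z‖ ^ (n - 1) * ‖P.Q k1 l m z‖ ≤
              1 * Real.exp (t / 20 + H - (2 * ν + 4) * t) :=
              mul_le_mul h5 (hQA z hz1 k hk hzA) (norm_nonneg _) zero_le_one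
          _ = _ := one_mul _
      rw [norm_mul]
      have hzS : z ∈ coreS P k1 l (P.ρ l) := by
        right
        simp only [mem_iUnion, exists_prop]
        exact ⟨k, hk, hzA⟩
      have h6 : ‖ext ((g : OO P.D) : C(P.D, ℂ)) z‖ ≤
          C * Real.exp (ν * t) * Real.exp (t / 8) := by
        refine le_trans ?_ hg3
        rw [hK3]
        exact le_nrm_mkK _ _ _ hzS
      exact mul_le_mul h6 hWz (norm_nonneg _) (by positivity))
  have hS4 : ‖∮ z in C(0, P.ρ l), ext ((g : OO P.D) : C(P.D, ℂ)) z * W z‖ ≤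
      2 * Real.pi * (C * Real.exp (ν * t) * Real.exp (t / 8) * Real.exp (t / 20 + H) *
        Real.exp (-((2 * ν + 4) * t))) := by
    have h1 : ∀ z ∈ Metric.sphere (0 : ℂ) (P.ρ l), ‖ext ((g : OO P.D) : C(P.D, ℂ)) z * W z‖ ≤
        C * Real.exp (ν * t) * Real.exp (t / 8) *
          (P.ρ l ^ (n - 1) * Real.exp (t / 20 + H)) := by
      intro z hz
      have hzn := mem_sphere_zero_iff_norm.1 hz
      rw [norm_mul]
      have hz1 : ‖z‖ ≤ 1 := by
        rw [hzn]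
        exact core_rho_le P l
      refine mul_le_mul ?_ ?_ (norm_nonneg _) (by positivity)
      · refine le_trans ?_ hg3
        rw [hK3]
        exact le_nrm_mkK _ _ _ (Or.inl hz)
      · simp only [hW]
        rw [norm_mul, norm_pow, hzn]
        exact mul_le_mul_of_nonneg_left (hQb z hz1) (by positivity)
    refine (circleIntegral.norm_integral_le_of_norm_le_const hρl.le h1).trans ?_
    have h2 : P.ρ l * P.ρ l ^ (n - 1) = P.ρ l ^ n := by
      rw [← pow_succ']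
      congr 1
      omega
    have hpi := Real.pi_pos
    calc 2 * Real.pi * P.ρ l * (C * Real.exp (ν * t) * Real.exp (t / 8) *
          (P.ρ l ^ (n - 1) * Real.exp (t / 20 + H)))
        = 2 * Real.pi * (C * Real.exp (ν * t) * Real.exp (t / 8) * Real.exp (t / 20 + H) *
          (P.ρ l * P.ρ l ^ (n - 1))) := by ring
      _ ≤ _ := by
        rw [h2]
        gcongr
  -- conclusion
  have hfin : 2 * Real.pi ≤
      2 * Real.pi * (C * Real.exp (-t) * Real.exp (t / 8) * Real.exp (t / 20 + H)) +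
      (2 * Real.pi * (C * Real.exp (ν * t) * Real.exp (t / 8) * Real.exp (t / 20 + H) *
        Real.exp (-((2 * ν + 4) * t))) + CS * B) := by
    have h1 := congrArg norm hmain
    rw [hn0] at h1
    have h3 := norm_add_le (∮ z in C(0, P.ρ k1), ext ((f - g : OO P.D) : C(P.D, ℂ)) z * W z)
      (∮ z in C(0, P.ρ k1), ext ((g : OO P.D) : C(P.D, ℂ)) z * W z)
    have h4 := norm_le_norm_add_norm_sub'
      (∮ z in C(0, P.ρ k1), ext ((g : OO P.D) : C(P.D, ℂ)) z * W z)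
      (∮ z in C(0, P.ρ l), ext ((g : OO P.D) : C(P.D, ℂ)) z * W z)
    linarith
  -- exponentials
  have x1 : ∀ x : ℝ, x ≤ -(t / 2) → Real.exp x ≤ Real.exp (-(t / 2)) := fun x hx =>
    Real.exp_le_exp.2 hx
  have hEH : Real.exp (t / 20 + H) = Real.exp H * Real.exp (t / 20) := by
    rw [add_comm, Real.exp_add]
  have hνt : 0 ≤ ν * t := mul_nonneg hν ht0
  have y1 : C * Real.exp (-t) * Real.exp (t / 8) * Real.exp (t / 20 + H) ≤
      Real.exp H * C * Real.exp (-(t / 2)) := by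
    have a1 : Real.exp (-t) * Real.exp (t / 8) * Real.exp (t / 20) ≤ Real.exp (-(t / 2)) := by
      rw [← Real.exp_add, ← Real.exp_add]
      exact x1 _ (by linarith)
    rw [hEH]
    calc _ = Real.exp H * C * (Real.exp (-t) * Real.exp (t / 8) * Real.exp (t / 20)) := by ring
      _ ≤ _ := mul_le_mul_of_nonneg_left a1 (by positivity)
  have a3 : Real.exp (ν * t) * Real.exp (t / 8) * Real.exp (t / 20) *
      Real.exp (-((2 * ν + 4) * t)) ≤ Real.exp (-(t / 2)) := by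
    rw [← Real.exp_add, ← Real.exp_add, ← Real.exp_add]
    exact x1 _ (by nlinarith)
  have y3 : C * Real.exp (ν * t) * Real.exp (t / 8) * Real.exp (t / 20 + H) *
      Real.exp (-((2 * ν + 4) * t)) ≤ Real.exp H * C * Real.exp (-(t / 2)) := by
    rw [hEH]
    calc _ = Real.exp H * C * (Real.exp (ν * t) * Real.exp (t / 8) * Real.exp (t / 20) *
          Real.exp (-((2 * ν + 4) * t))) := by ring
      _ ≤ _ := mul_le_mul_of_nonneg_left a3 (by positivity)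
  have y4 : B ≤ Real.exp H * C * Real.exp (-(t / 2)) := by
    refine le_trans (le_of_eq ?_) y3
    rw [hB, sub_eq_add_neg, Real.exp_add (t / 20 + H)]
    ring
  have hpi := Real.pi_pos
  refine hfin.trans ?_
  have z1 := mul_le_mul_of_nonneg_left y1 (by positivity : 0 ≤ 2 * Real.pi)
  have z3 := mul_le_mul_of_nonneg_left y3 (by positivity : 0 ≤ 2 * Real.pi)
  have z4 := mul_le_mul_of_nonneg_left y4 hCS
  calc _ ≤ 2 * Real.pi * (Real.exp H * C * Real.exp (-(t / 2))) +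
        (2 * Real.pi * (Real.exp H * C * Real.exp (-(t / 2))) +
          CS * (Real.exp H * C * Real.exp (-(t / 2)))) :=
        add_le_add z1 (add_le_add z3 z4)
    _ = _ := by
      ring

/-- **The obstruction.** -/
theorem obstruct (P : Par) {k1 : ℕ} (hG : P.Good k1) {ν : ℝ} (hν : 0 ≤ ν)
    (hw : ∀ l, (2 * ν + 4) * ∑ k ∈ Finset.Ioc k1 l, P.w k ≤ 1 / 100) (N : Compacts P.D)
    (hN : ∀ (z : ℂ) (hz : (z : OnePoint ℂ) ∈ P.D), ‖z‖ = P.ρ k1 → (⟨z, hz⟩ : P.D) ∈ N) :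
    ¬ AppProp P.D N ν := by
  rintro ⟨K', hK'⟩
  obtain ⟨ρ'', hρ0, hρ1, haw1⟩ := core_away P K'
  -- `M`
  obtain ⟨M, hM⟩ := exists_nat_ge (max (8 * Real.log (1 / ρ'')) 1)
  have hM1 : 1 ≤ M := by
    have : (1 : ℝ) ≤ M := (le_max_right _ _).trans hM
    exact_mod_cast this
  have hM3 : Real.log (1 / ρ'') ≤ (M : ℝ) / 8 := by
    have := (le_max_left _ _).trans hM
    linarith
  -- `l`
  obtain ⟨l', hl'⟩ := exists_pow_lt_of_lt_one (Real.exp_pos (-((2 * ν + 4) * M))) P.q1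
  set l : ℕ := max k1 l' with hl
  have hkl : k1 ≤ l := le_max_left _ _
  have hll : (2 * ν + 4) * M ≤ Real.log (1 / P.ρ l) := by
    have h1 : P.ρ l ≤ Real.exp (-((2 * ν + 4) * M)) := by
      have h2 : P.q ^ l ≤ P.q ^ l' := pow_le_pow_of_le_one P.q0.le P.q1.le (le_max_right _ _)
      have h3 : P.ρ l ≤ P.q ^ l := by
        unfold Par.ρ
        have h4 : 0 ≤ P.q ^ l := pow_nonneg P.q0.le _
        have h5 := P.q1
        nlinarith
      exact h3.trans (h2.trans hl'.le)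
    rw [one_div, Real.log_inv]
    have h6 := Real.log_le_log (core_rho_pos P l) h1
    rw [Real.log_exp] at h6
    linarith
  have hρle : P.ρ l ≤ P.ρ k1 := by
    unfold Par.ρ
    have h5 := P.q0
    exact mul_le_mul_of_nonneg_right (pow_le_pow_of_le_one P.q0.le P.q1.le hkl) (by positivity)
  obtain ⟨CS, hCS, hSt⟩ := stokes (P.ρ l) (P.ρ k1) (Finset.Ioc k1 l) P.c P.r (core_rho_pos P l)
    hρle (fun k hk => P.r0 k (by
      have := (Finset.mem_Ioc.1 hk).1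
      omega)) (fun z hz k hk => (circ P k1 l hG hkl z hz).2.2 k hk)
  set K3 : Compacts P.D := mkK (coreS P k1 l (P.ρ l)) (coreS_compact _ _ _ _)
      (coreS_sub regSub circ annSub P hG hkl (Or.inr rfl)) with hK3
  obtain ⟨C, hC, hT⟩ := hK' K3
  refine core_limit (M := M) (A := Real.exp (∑ k ∈ Finset.Ioc k1 l, P.h k) *
    (2 * Real.pi * C + (2 * Real.pi * C + CS * C))) (by exact_mod_cast hM1) fun n hn => ?_
  exact obs_ineq P hG hkl hM1 hν (hw l) hρ0 hM3 hll N K' K3 hN hK3 haw1 hCS hSt hC hn hT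

end Pool.Agent.Lib.MP_413903_an
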