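import Pool.Agent.Lib.MP_413903_an.T.Fam

/-!
# MP_413903_an, tame isomorphisms: continuum many classes
-/

set_option autoImplicit false

namespace Pool.Agent.Lib.MP_413903_an

open Complex Set Filter Topology OnePoint NNReal TopologicalSpace

/-- The value at the point `z` of the plane of the function `f` analytic in `D` (`0` if `z ∉ D`). -/
noncomputable def val {D : Set (OnePoint ℂ)} (f : OSp D) (z : ℂ) : ℂ :=
  ext (Subtype.val (p := fun g : C(D, ℂ) => g ∈ OO D) f) z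

/-- `T : O(D(q, r)) → O(D(q, r'))` is `S`-tame on the set `A` of scales: for every `c ∈ A` the sup
norm of `T f` over the points at distance at least `exp (-c)` from the removed set is at most a
constant (depending on `T` and `c`) times the sup norm of `f` over the points at distance at least
`exp (-S c)` from the removed set. -/
def TameOn (S : ℝ → ℝ) (A : Set ℝ) (q : ℝ) (r r' : ℕ → ℝ) (T : OSp (Dom q r) → OSp (Dom q r')) :
    Prop :=
  ∀ c ∈ A, ∃ C : ℝ, ∀ (f : OSp (Dom q r)) (B : ℝ),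
    (∀ z : ℂ, Real.exp (-S c) ≤ Metric.infDist z (Removed q r) → ‖val f z‖ ≤ B) →
    ∀ z : ℂ, Real.exp (-c) ≤ Metric.infDist z (Removed q r') → ‖val (T f) z‖ ≤ C * B

/-! ### Connectedness -/

theorem up_out {q : ℝ} {r : ℕ → ℝ} {z : ℂ} {s : ℝ} (hs : 0 ≤ s * z.im) (hz : z ∉ Removed q r) :
    z + (s : ℂ) * I ∉ Removed q r := by
  have hn : ∀ x : ℝ, ‖z - (x : ℂ)‖ ≤ ‖z + (s : ℂ) * I - (x : ℂ)‖ := by
    intro x
    rw [Complex.norm_def, Complex.norm_def]
    refine Real.sqrt_le_sqrt ?_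
    rw [Complex.normSq_apply, Complex.normSq_apply]
    simp only [sub_re, ofReal_re, sub_im, ofReal_im, add_re, add_im, mul_re, mul_im, I_re, I_im]
    nlinarith [sq_nonneg s]
  rintro (h | ⟨j, hj, h⟩)
  · apply hz
    left
    have h1 := hn 0
    rw [Complex.ofReal_zero, sub_zero, sub_zero, h, norm_zero] at h1
    exact norm_eq_zero.1 (le_antisymm h1 (norm_nonneg _))
  · apply hz
    right
    refine ⟨j, hj, ?_⟩
    have h1 := hn (q ^ j)
    push_cast at h1
    exact h1.trans h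

theorem inf_mem_dom (q : ℝ) (r : ℕ → ℝ) : (∞ : OnePoint ℂ) ∈ Dom q r := by
  rintro ⟨z, -, h⟩
  exact OnePoint.coe_ne_infty z h

/-- `D(q, r)` is connected. -/
theorem dom_connected (q : ℝ) (r : ℕ → ℝ) : IsConnected (Dom q r) := by
  refine ⟨⟨∞, inf_mem_dom q r⟩, ?_⟩
  refine isPreconnected_of_forall ∞ fun p hp => ?_
  induction p using OnePoint.rec with
  | infty => exact ⟨{∞}, by simpa using hp, rfl, rfl, isPreconnected_singleton⟩
  | coe z =>
    have hz := coe_mem_dom.1 hp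
    -- the direction
    obtain ⟨e, he, hez⟩ : ∃ e : ℝ, e ≠ 0 ∧ 0 ≤ e * z.im := by
      by_cases h : 0 ≤ z.im
      · exact ⟨1, one_ne_zero, by linarith⟩
      · exact ⟨-1, by norm_num, by
          have := not_le.1 h
          linarith⟩
    set g : ℝ → OnePoint ℂ := fun t => ((z + ((e * t : ℝ) : ℂ) * I : ℂ) : OnePoint ℂ) with hg
    have hgc : Continuous g := by
      refine OnePoint.continuous_coe.comp ?_
      fun_prop
    have h1 : IsPreconnected (g '' Ici 0) := isPreconnected_Ici.image g hgc.continuousOn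
    have h2 : g '' Ici 0 ⊆ Dom q r := by
      rintro _ ⟨t, ht, rfl⟩
      refine coe_mem_dom.2 (up_out ?_ hz)
      have ht' : (0 : ℝ) ≤ t := ht
      nlinarith [mul_nonneg ht' hez]
    have h3 : Tendsto g atTop (𝓝 ∞) := by
      have h4 : Tendsto (fun z : ℂ => (z : OnePoint ℂ)) (Bornology.cobounded ℂ)
          (𝓝 (∞ : OnePoint ℂ)) := by
        have := OnePoint.tendsto_coe_infty (X := ℂ)
        rwa [Filter.coclosedCompact_eq_cocompact, ← Metric.cobounded_eq_cocompact] at this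
      refine h4.comp ?_
      rw [← tendsto_norm_atTop_iff_cobounded]
      have h5 : ∀ t : ℝ, |e| * t - ‖z‖ ≤ ‖z + ((e * t : ℝ) : ℂ) * I‖ := by
        intro t
        have h6 : ‖((e * t : ℝ) : ℂ) * I‖ ≤ ‖z + ((e * t : ℝ) : ℂ) * I‖ + ‖z‖ := by
          have := norm_sub_le (z + ((e * t : ℝ) : ℂ) * I) z
          rwa [add_sub_cancel_left] at this
        rw [norm_mul, Complex.norm_I, mul_one, Complex.norm_real, Real.norm_eq_abs, abs_mul] at h6
        have h7 : |e| * t ≤ |e| * |t| := mul_le_mul_of_nonneg_left (le_abs_self t) (abs_nonneg e)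
        linarith
      refine tendsto_atTop_mono h5 ?_
      exact tendsto_atTop_add_const_right _ _ (tendsto_id.const_mul_atTop (abs_pos.2 he))
    refine ⟨insert ∞ (g '' Ici 0), ?_, mem_insert _ _, mem_insert_of_mem _ ⟨0, self_mem_Ici, ?_⟩, ?_⟩
    · exact insert_subset (inf_mem_dom q r) h2
    · simp [hg]
    · refine h1.subset_closure (subset_insert _ _) (insert_subset ?_ subset_closure)
      refine mem_closure_of_tendsto h3 ?_
      filter_upwards [eventually_ge_atTop 0] with t ht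
      exact ⟨t, ht, rfl⟩

/-! ### The circle `|z| = ρ_k` -/

section

variable (P : Par) (hr8 : ∀ j, 1 ≤ j → P.r j ≤ (1 - P.q) / 8 * P.q ^ j)

include hr8

theorem tame_good {k : ℕ} (hk : 1 ≤ k) : P.Good k := by
  have hq0 := P.q0
  have hq1 := P.q1
  refine ⟨hk, fun j hj => ?_, fun j hj hjk => ?_⟩
  · have h1 := hr8 j (by omega)
    have h2 : 0 < P.q ^ j := by positivity
    nlinarith
  · have h1 := hr8 j hj
    have h2 : 0 < P.q ^ j := by positivity
    have h3 : P.ρ k ≤ P.q ^ j * ((1 + P.q) / 2) := by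
      unfold Par.ρ
      exact mul_le_mul_of_nonneg_right (pow_le_pow_of_le_one hq0.le hq1.le hjk) (by positivity)
    nlinarith

theorem tame_circle {k : ℕ} {z : ℂ} (hz : ‖z‖ = P.ρ k) :
    (1 - P.q) / 8 * P.q ^ k ≤ Metric.infDist z (Removed P.q P.r) := by
  have hq0 := P.q0
  have hq1 := P.q1
  have hqk : 0 < P.q ^ k := by positivity
  have hne : (Removed P.q P.r).Nonempty := ⟨0, Or.inl rfl⟩
  rw [Metric.le_infDist hne]
  rintro y (hy | ⟨j, hj, hy⟩)
  · rw [hy, dist_zero_right, hz]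
    unfold Par.ρ
    nlinarith
  · have hyj : ‖y - P.c j‖ ≤ P.r j := hy
    have h1 := hr8 j hj
    have hqj : 0 < P.q ^ j := by positivity
    rw [dist_eq_norm]
    have h2 : ‖z - P.c j‖ ≤ ‖z - y‖ + ‖y - P.c j‖ := by
      have := norm_add_le (z - y) (y - P.c j)
      rwa [sub_add_sub_cancel] at this
    by_cases hjk : j ≤ k
    · have h3 : P.q ^ j - P.ρ k ≤ ‖z - P.c j‖ := by
        have := norm_sub_norm_le (P.c j) z
        rw [core_normc, hz, norm_sub_rev] at this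
        exact this
      have h4 : P.q ^ k ≤ P.q ^ j := pow_le_pow_of_le_one hq0.le hq1.le hjk
      have h5 : P.ρ k ≤ P.q ^ j * ((1 + P.q) / 2) := by
        unfold Par.ρ
        exact mul_le_mul_of_nonneg_right h4 (by positivity)
      have h6 : (1 - P.q) / 8 * P.q ^ k ≤ (1 - P.q) / 8 * P.q ^ j :=
        mul_le_mul_of_nonneg_left h4 (by linarith)
      nlinarith
    · have h3 : P.ρ k - P.q ^ j ≤ ‖z - P.c j‖ := by
        have := norm_sub_norm_le z (P.c j)
        rw [core_normc, hz] at this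
        exact this
      have h4 : P.q ^ j ≤ P.q ^ k * P.q := by
        rw [← pow_succ]
        exact pow_le_pow_of_le_one hq0.le hq1.le (by omega)
      have h5 : (1 - P.q) / 8 * P.q ^ j ≤ (1 - P.q) / 8 * (P.q ^ k * P.q) :=
        mul_le_mul_of_nonneg_left h4 (by linarith)
      unfold Par.ρ at h3
      have h6 : 0 ≤ P.q ^ k * ((1 - P.q) * (3 - P.q)) := by
        have : 0 < 1 - P.q := by linarith
        have : 0 < 3 - P.q := by linarith
        positivity
      nlinarith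

end

/-- the windows -/
noncomputable def fW (q : ℝ) (S : ℝ → ℝ) (n : ℕ) : ℝ := fc q (fM q S (2 ^ n - 1))

/-- No tame open map. -/
theorem tame_main {q : ℝ} (hq0 : 0 < q) (hq1 : q < 1) (S : ℝ → ℝ) {X Y : ℕ → Bool} {i0 n : ℕ}
    (hXY : X i0 ≠ Y i0) (hn : i0 < n)
    (T : OSp (Dom q (fr q S X)) →L[ℂ] OSp (Dom q (fr q S Y))) (hTo : IsOpenMap T)
    (hT : TameOn S (Icc (fW q S n) (fW q S (n + 1))) q (fr q S X) (fr q S Y) T) : False := by
  -- the block
  obtain ⟨b, hb1, hb2, hbX, hbY⟩ := fbit_diff hXY hn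
  set k1 : ℕ := fM q S b with hk1
  have hk11 : 1 ≤ k1 := by
    have := fM_lt q S b
    omega
  have hw : fc q k1 ∈ Icc (fW q S n) (fW q S (n + 1)) := by
    constructor
    · exact fc_mono q hq0 hq1 (fM_mono q S (by omega))
    · exact fc_mono q hq0 hq1 (fM_mono q S (by omega))
  obtain ⟨C, hC⟩ := hT (fc q k1) hw
  set PX : Par := fP q S hq0 hq1 X with hPX
  set PY : Par := fP q S hq0 hq1 Y with hPY
  have hrX : ∀ j, 1 ≤ j → PX.r j ≤ (1 - PX.q) / 8 * PX.q ^ j := fun j _ =>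
    fr_le q S hq0 hq1 X j
  have hrY : ∀ j, 1 ≤ j → PY.r j ≤ (1 - PY.q) / 8 * PY.q ^ j := fun j _ =>
    fr_le q S hq0 hq1 Y j
  obtain ⟨hκ1, hκ2⟩ := fkap_spec q S hq0 hq1 k1
  set κ : ℕ := fkap q S k1 with hκ
  set δ : ℝ := Real.exp (-S (fc q k1)) with hδ
  have hδ0 : 0 < δ := Real.exp_pos _
  set N : Compacts PX.D := awayK PX δ hδ0 with hN
  have happ : AppProp PX.D N (3 * (PX.L κ + 1)) :=
    approx PX hrX hκ1 N fun p hp z hz => hκ2.trans (awayK_far PX hδ0 p hp z hz)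
  have hGood : PY.Good k1 := tame_good PY hrY hk11
  have hcirc : ∀ z ∈ Metric.sphere (0 : ℂ) (PY.ρ k1), (z : OnePoint ℂ) ∈ PY.D := fun z hz =>
    core_circ1 regSub circ PY hGood le_rfl (Or.inl (mem_sphere_zero_iff_norm.1 hz))
  set N' : Compacts PY.D := mkK (Metric.sphere 0 (PY.ρ k1)) (isCompact_sphere _ _) hcirc with hN'
  let T' : OO PX.D →L[ℂ] OO PY.D := T
  have hTn : ∃ C' : ℝ, 0 ≤ C' ∧ ∀ f : OO PX.D,
      nrm N' (T' f : C(PY.D, ℂ)) ≤ C' * nrm N (f : C(PX.D, ℂ)) := by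
    refine ⟨max C 0, le_max_right _ _, fun f => ?_⟩
    have hf0 := nrm_nonneg N (f : C(PX.D, ℂ))
    refine nrm_mkK_le _ _ _ (by positivity) fun z hz => ?_
    have h1 := hC f (nrm N (f : C(PX.D, ℂ))) (fun w hw => ?_) z ?_
    · refine h1.trans ?_
      exact mul_le_mul_of_nonneg_right (le_max_left _ _) hf0
    · have hwD : (w : OnePoint ℂ) ∈ PX.D := by
        refine coe_mem_dom.2 fun hwR => ?_
        have h2 : Metric.infDist w (Removed q (fr q S X)) = 0 := Metric.infDist_zero_of_mem hwR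
        rw [h2] at hw
        exact absurd hw (not_le.2 (Real.exp_pos _))
      have h3 : (⟨w, hwD⟩ : PX.D) ∈ N := (mem_awayK PX hδ0 hwD).2 hw
      have h4 := le_nrm N (f : C(PX.D, ℂ)) h3
      have h5 : val (D := PX.D) f w = (f : C(PX.D, ℂ)) ⟨w, hwD⟩ := ext_of_mem _ hwD
      exact (le_of_eq (congrArg norm h5)).trans h4
    · have h2 := tame_circle PY hrY (mem_sphere_zero_iff_norm.1 hz)
      rw [fexp_c q hq0 hq1]
      exact h2
  have hV := fV_one q S hq0 hq1 (2 * b)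
  have hL1 : PX.L κ ≤ fV q S (2 * b) := by
    rw [hPX, fP_L]
    exact fL_small q S hq0 hq1 hbX (fM_kap q S b)
  have hL0 : 0 ≤ PX.L κ := by
    rw [hPX, fP_L]
    exact (fL_pos q S hq0 hq1 X κ).le
  refine obstruct PY hGood (ν := 3 * (PX.L κ + 1)) (by positivity) (fun l => ?_) N'
    (fun z hz hzn => ?_) (inv T' hTo N N' hTn happ)
  · have h1 := fsum_le q S hq0 hq1 hbY l
    have h2 : 2 * (3 * (PX.L κ + 1)) + 4 ≤ 10 * (fV q S (2 * b) + 1) := by linarith
    calc (2 * (3 * (PX.L κ + 1)) + 4) * ∑ k ∈ Finset.Ioc k1 l, PY.w k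
        ≤ (2 * (3 * (PX.L κ + 1)) + 4) * (1 / (10000 * (fV q S (2 * b) + 1))) :=
          mul_le_mul_of_nonneg_left h1 (by positivity)
      _ ≤ (10 * (fV q S (2 * b) + 1)) * (1 / (10000 * (fV q S (2 * b) + 1))) :=
          mul_le_mul_of_nonneg_right h2 (by positivity)
      _ = 1 / 1000 := by
          field_simp
          norm_num
      _ ≤ 1 / 100 := by norm_num
  · exact ⟨⟨z, mem_sphere_zero_iff_norm.2 hzn⟩, rfl⟩

/-- a function `ℝ → ℝ` which is eventually at least `S i` for all `i` -/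
noncomputable def domS (S : ℕ → ℝ → ℝ) (c : ℝ) : ℝ :=
  (Finset.range (⌈c⌉₊ + 1)).sup' (Finset.nonempty_range_add_one) fun i => S i c

theorem le_domS (S : ℕ → ℝ → ℝ) {i : ℕ} {c : ℝ} (h : (i : ℝ) ≤ c) : S i c ≤ domS S c := by
  unfold domS
  refine Finset.le_sup' (fun i => S i c) ?_
  rw [Finset.mem_range]
  have h1 : (i : ℝ) ≤ ⌈c⌉₊ := h.trans (Nat.le_ceil c)
  have h2 : i ≤ ⌈c⌉₊ := by exact_mod_cast h1
  omega

theorem TameOn.mono {S S' : ℝ → ℝ} {A : Set ℝ} {q : ℝ} {r r' : ℕ → ℝ}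
    {T : OSp (Dom q r) → OSp (Dom q r')} (h : TameOn S A q r r' T)
    (hS : ∀ c ∈ A, S c ≤ S' c) : TameOn S' A q r r' T := by
  intro c hc
  obtain ⟨C, hC⟩ := h c hc
  refine ⟨C, fun f B hf z hz => hC f B (fun w hw => hf w (le_trans ?_ hw)) z hz⟩
  exact Real.exp_le_exp.2 (neg_le_neg (hS c hc))

theorem fW_ge {q : ℝ} (hq0 : 0 < q) (hq1 : q < 1) (S : ℝ → ℝ) (n : ℕ) :
    (n : ℝ) * Real.log (1 / q) ≤ fW q S n := by
  unfold fW fc
  have h1 : n ≤ fM q S (2 ^ n - 1) := by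
    have h2 := fM_lt q S (2 ^ n - 1)
    have h3 : n < 2 ^ n := Nat.lt_two_pow_self
    omega
  have h4 : (n : ℝ) ≤ fM q S (2 ^ n - 1) := by exact_mod_cast h1
  have h5 := mul_le_mul_of_nonneg_right h4 (flam_pos q hq0 hq1).le
  have h6 := fA_pos q hq0 hq1
  linarith

theorem fW_tendsto {q : ℝ} (hq0 : 0 < q) (hq1 : q < 1) (S : ℝ → ℝ) :
    Tendsto (fW q S) atTop atTop := by
  refine tendsto_atTop_mono (fW_ge hq0 hq1 S) ?_
  exact tendsto_natCast_atTop_atTop.atTop_mul_const (flam_pos q hq0 hq1)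

/-- **Main theorem.** -/
theorem tame_classes (q : ℝ) (hq0 : 0 < q) (hq1 : q < 1) (S : ℕ → ℝ → ℝ) :
    ∃ (r : (ℕ → Bool) → ℕ → ℝ) (w : ℕ → ℝ), Tendsto w atTop atTop ∧
      (∀ X, Antitone (r X) ∧ (∀ j, 0 < r X j ∧ r X j ≤ (1 - q) / 8 * q ^ j) ∧
        (Summable fun j : ℕ => (Real.log (1 / r X j))⁻¹) ∧
        (Summable fun j : ℕ => (j : ℝ) / Real.log (1 / r X j)) ∧
        IsOpen (Dom q (r X)) ∧ IsConnected (Dom q (r X))) ∧
      ∀ X Y : ℕ → Bool, X ≠ Y → ∀ i : ℕ, ∃ n0 : ℕ, ∀ n, n0 ≤ n →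
        ∀ T : OSp (Dom q (r X)) →L[ℂ] OSp (Dom q (r Y)), IsOpenMap T →
          ¬ TameOn (S i) (Icc (w n) (w (n + 1))) q (r X) (r Y) T := by
  refine ⟨fr q (domS S), fW q (domS S), fW_tendsto hq0 hq1 _, fun X => ⟨fr_anti q _ hq0 hq1 X,
    fun j => ⟨fr_pos q _ X j, fr_le q _ hq0 hq1 X j⟩, fr_sum1 q _ hq0 hq1 X,
    fr_sum2 q _ hq0 hq1 X, (fP q _ hq0 hq1 X).isOpen, dom_connected _ _⟩, ?_⟩
  intro X Y hXY i
  obtain ⟨i0, hi0⟩ := Function.ne_iff.1 hXY
  obtain ⟨n1, hn1⟩ := Filter.eventually_atTop.1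
    ((fW_tendsto hq0 hq1 (domS S)).eventually (eventually_ge_atTop (i : ℝ)))
  refine ⟨max n1 (i0 + 1), fun n hn T hTo hT => ?_⟩
  refine tame_main hq0 hq1 (domS S) hi0 (n := n) ?_ T hTo (hT.mono fun c hc => ?_)
  · have := le_max_right n1 (i0 + 1)
    omega
  · exact le_domS S ((hn1 n ((le_max_left _ _).trans hn)).trans hc.1)

end Pool.Agent.Lib.MP_413903_an
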